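import Mathlib

/-!
# Proof systems for quantified Boolean formulas in which alternations are free

Definitions. The lines of a refutation are Boolean functions, and an inference is allowed whenever
it can be justified by a game with at most `k` rounds.
-/

namespace Pool.Agent.Helper67.QP

/-- A quantified Boolean formula in prenex conjunctive normal form. The variables are the elements
of a linearly ordered type and are quantified in this order, `ex v = true` means that `v` is
quantified existentially, and `cnf` is the list of the clauses. A literal `(v, b)` is true if the
value of `v` is `b`. -/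
structure QCNF (ι : Type) where
  /-- the existential variables -/
  ex : ι → Bool
  /-- the clauses -/
  cnf : List (List (ι × Bool))

/-- The matrix of the formula is true under the assignment `a`. -/
def QCNF.Holds {ι : Type} (Φ : QCNF ι) (a : ι → Bool) : Prop :=
  ∀ C ∈ Φ.cnf, ∃ l ∈ C, a l.1 = l.2

/-- The assignment in which the variables in `X` have their values under `a`, the other
existential variables their values under `b` and the other universal ones their values under
`h`. -/
noncomputable def QCNF.play {ι : Type} (Φ : QCNF ι) (X : Set ι) (a b h : ι → Bool) : ι → Bool :=
  open Classical in fun v => if v ∈ X then a v else if Φ.ex v = true then b v else h v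

/-- After the variables in `X` have been given the values of `a`, the universal player can
falsify `P` in at most `k` rounds. In round `i < k` first the universal variables `v` with
`rnd v = i` and then the existential variables `v` with `rnd v = i` are given their values; a
universal variable may be moved to an earlier place of the order of quantification but not to a
later one. The strategy of the universal player is `H`: the value `H b v` of the universal variable
`v` depends only on the values `b` of the existential variables of the earlier rounds. -/
def QCNF.FalseWithin {ι : Type} [LinearOrder ι] (Φ : QCNF ι) (k : ℕ) (X : Set ι) (a : ι → Bool)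
    (P : (ι → Bool) → Prop) : Prop :=
  ∃ (rnd : ι → ℕ) (H : (ι → Bool) → ι → Bool),
    (∀ v, rnd v < k) ∧
    (∀ u v, u ∉ X → v ∉ X → Φ.ex u = false → Φ.ex v = true → u < v → rnd u ≤ rnd v) ∧
    (∀ b b' u, (∀ v, v ∉ X → Φ.ex v = true → rnd v < rnd u → b v = b' v) → H b u = H b' u) ∧
    ∀ b, ¬ P (Φ.play X a b (H b))

/-- A line of a refutation: the Boolean function `val` of the variables in `ctx`. -/
structure Line (ι : Type) where
  /-- the context -/
  ctx : Set ι
  /-- the Boolean function -/
  val : (ι → Bool) → Bool

/-- The function of the line depends only on the variables of its context, and the context contains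
with every existential variable all universal variables to the left of it. -/
def Line.Ok {ι : Type} [LinearOrder ι] (l : Line ι) (Φ : QCNF ι) : Prop :=
  (∀ a b, (∀ v ∈ l.ctx, a v = b v) → l.val a = l.val b) ∧
    ∀ v ∈ l.ctx, Φ.ex v = true → ∀ u, u < v → Φ.ex u = false → u ∈ l.ctx

/-- A refutation of `Φ` with `s` lines in which all reasoning with `k` rounds is free: a line may be
inferred from the matrix and from all the earlier lines if the following holds for every
assignment `a` which falsifies it: once the variables of its context have their values under `a`,
the universal player can falsify the conjunction of the matrix and of the earlier lines within `k`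
rounds. Some line is the constant `false` with the empty context. -/
structure Refutation {ι : Type} [LinearOrder ι] (Φ : QCNF ι) (k s : ℕ) where
  /-- the lines -/
  line : Fin s → Line ι
  /-- the contexts are legal -/
  ok : ∀ j, (line j).Ok Φ
  /-- every line can be inferred -/
  step : ∀ j a, (line j).val a = false → Φ.FalseWithin k (line j).ctx a
    fun b => Φ.Holds b ∧ ∀ i < j, (line i).val b = true
  /-- the contradiction -/
  last : ∃ j, (line j).ctx = ∅ ∧ ∀ a, (line j).val a = false

/-! Semantics: truth, and soundness -/

/-- `Φ` is true: there are Skolem functions which satisfy the matrix. -/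
def QCNF.IsTrue {ι : Type} [LinearOrder ι] (Φ : QCNF ι) : Prop :=
  ∃ F : (ι → Bool) → ι → Bool,
    (∀ h h' v, (∀ u, u < v → Φ.ex u = false → h u = h' u) → F h v = F h' v) ∧
    ∀ h, Φ.Holds (Φ.play ∅ h (F h) h)

/-! Circuits -/

/-- The Boolean function `f` (as a function with values `0` and `1`) is a polynomial of degree at
most `D` over `Z/p` in the variables, which are read as the elements `0` and `1` of `Z/p`. -/
def HasDegree (p D : ℕ) {ι : Type} (f : (ι → Bool) → Bool) : Prop :=
  ∃ P : MvPolynomial ι (ZMod p), P.totalDegree ≤ D ∧
    ∀ a : ι → Bool, MvPolynomial.eval (fun v => if a v = true then (1 : ZMod p) else 0) P =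
      if f a = true then 1 else 0

/-- A circuit whose variables are the elements of `ι`, with the nodes `0, …, N - 1`; `val i` is the
Boolean function computed at the node `i`. A node is either an input node, which computes a function
of degree at most `D` over `Z/p` (for example a variable or a constant if `D = 1`), or the negation
of an earlier node, or a `MOD p` gate (which tests whether the number of true inputs is congruent to
`r` modulo `p`), or an AND gate or an OR gate. The fan-in is unbounded. The function `depth` grows
along every wire into a `MOD p`, AND or OR gate. -/
structure Circuit (p D : ℕ) (ι : Type) where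
  /-- the number of nodes -/
  N : ℕ
  /-- the functions computed at the nodes -/
  val : Fin N → (ι → Bool) → Bool
  /-- the depth of the nodes -/
  depth : Fin N → ℕ
  /-- the AND gates and the OR gates -/
  andOr : Finset (Fin N)
  /-- every node is of one of the allowed kinds -/
  rule : ∀ i : Fin N,
    (i ∉ andOr ∧ HasDegree p D (val i)) ∨
    (i ∉ andOr ∧ ∃ j : Fin N, j < i ∧ depth j ≤ depth i ∧ ∀ a, val i a = !val j a) ∨
    (i ∉ andOr ∧ ∃ (J : Finset (Fin N)) (r : ZMod p), (∀ j ∈ J, j < i ∧ depth j < depth i) ∧
      ∀ a, val i a = decide (((J.filter fun j => val j a = true).card : ZMod p) = r)) ∨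
    (i ∈ andOr ∧ ∃ J : Finset (Fin N), (∀ j ∈ J, j < i ∧ depth j < depth i) ∧
      ((∀ a, val i a = decide (∀ j ∈ J, val j a = true)) ∨
        ∀ a, val i a = decide (∃ j ∈ J, val j a = true)))

/-- `f` is computed by a circuit of depth at most `d` with at most `S` AND and OR gates (the other
nodes are not counted), whose input nodes are functions of degree at most `D` over `Z/p`. -/
def Computed (p D d S : ℕ) {ι : Type} (f : (ι → Bool) → Bool) : Prop :=
  ∃ C : Circuit p D ι, C.andOr.card ≤ S ∧ (∀ i, C.depth i ≤ d) ∧ ∃ i, ∀ a, C.val i a = f a

/-! The hard formulas -/

/-- The variables of the formulas: `x i` and `z i` for every round `i`, the counters `c i j` (at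
least `j` of the first `i` inputs are true) and the variables `y i`. -/
inductive Var (n r : ℕ)
  | x (i : Fin (n + r))
  | z (i : Fin (n + r))
  | c (i : Fin (n + 1)) (j : Fin (n + 2))
  | y (i : Fin (n + r))
  deriving DecidableEq, Fintype

/-- The place of a variable in the order of quantification:
`x 0, z 0, x 1, z 1, …, x (n + r - 1), z (n + r - 1)`, then the counters, then `y 0, y 1, …`. -/
def Var.place {n r : ℕ} : Var n r → ℕ
  | .x i => 2 * i.val
  | .z i => 2 * i.val + 1
  | .c i j => 2 * (n + r) + (i.val * (n + 2) + j.val)
  | .y i => 2 * (n + r) + (n + 1) * (n + 2) + i.val

theorem Var.place_injective {n r : ℕ} : Function.Injective (Var.place (n := n) (r := r)) := by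
  intro u v h
  have hc : ∀ (i : Fin (n + 1)) (j : Fin (n + 2)), i.val * (n + 2) + j.val < (n + 1) * (n + 2) := by
    intro i j
    have h1 : i.val + 1 ≤ n + 1 := i.isLt
    have h2 := Nat.mul_le_mul_right (n + 2) h1
    have h3 := j.isLt
    rw [Nat.add_mul, Nat.one_mul] at h2
    omega
  cases u with
  | x i => cases v with
    | x j => exact congrArg _ (Fin.ext (by simp only [Var.place] at h; omega))
    | z j => exfalso; simp only [Var.place] at h; omega
    | c j l => exfalso; simp only [Var.place] at h; have := i.isLt; omega
    | y j => exfalso; simp only [Var.place] at h; have := i.isLt; omega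
  | z i => cases v with
    | x j => exfalso; simp only [Var.place] at h; omega
    | z j => exact congrArg _ (Fin.ext (by simp only [Var.place] at h; omega))
    | c j l => exfalso; simp only [Var.place] at h; have := i.isLt; omega
    | y j => exfalso; simp only [Var.place] at h; have := i.isLt; omega
  | c i i' => cases v with
    | x j => exfalso; simp only [Var.place] at h; have := j.isLt; omega
    | z j => exfalso; simp only [Var.place] at h; have := j.isLt; omega
    | c j j' =>
      simp only [Var.place] at h
      have h0 : i.val * (n + 2) + i'.val = j.val * (n + 2) + j'.val := by omega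
      have h1 : i.val = j.val := by
        have e1 : (i.val * (n + 2) + i'.val) / (n + 2) = (j.val * (n + 2) + j'.val) / (n + 2) := by
          rw [h0]
        rwa [Nat.add_comm (i.val * (n + 2)), Nat.add_mul_div_right _ _ (by omega),
          Nat.div_eq_of_lt i'.isLt, Nat.add_comm (j.val * (n + 2)),
          Nat.add_mul_div_right _ _ (by omega), Nat.div_eq_of_lt j'.isLt, Nat.zero_add,
          Nat.zero_add] at e1
      have h2 : i'.val = j'.val := by rw [h1] at h0; omega
      rw [Fin.ext h1, Fin.ext h2]
    | y j =>
      exfalso
      simp only [Var.place] at h
      have := hc i i'
      omega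
  | y i => cases v with
    | x j => exfalso; simp only [Var.place] at h; have := j.isLt; omega
    | z j => exfalso; simp only [Var.place] at h; have := j.isLt; omega
    | c j j' =>
      exfalso
      simp only [Var.place] at h
      have := hc j j'
      omega
    | y j => exact congrArg _ (Fin.ext (by simp only [Var.place] at h; omega))

noncomputable instance {n r : ℕ} : LinearOrder (Var n r) :=
  LinearOrder.lift' Var.place Var.place_injective

/-- The formula: the universal player has to answer `z i = x i` for `i < n` and
`z i = x i + M` (modulo 2) for `n ≤ i < n + r`, where `M` says whether more than half of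
`x 0, …, x (n - 1)` are true. The matrix says that some answer is wrong. Its clauses are, in this
order: the counters `c i 0` are true; the counters `c 0 (j + 1)` are false;
`c (i + 1) (j + 1) = c i (j + 1) ∨ (x i ∧ c i j)`; if `y i` is true, then the answer `z i` is
wrong; some `y i` is true. -/
def hard (n r : ℕ) : QCNF (Var n r) where
  ex := fun v => match v with
    | .z _ => false
    | _ => true
  cnf :=
    (List.finRange (n + 1)).map (fun i => [(.c i 0, true)]) ++
    (List.finRange (n + 1)).map (fun j => [(.c 0 j.succ, false)]) ++
    (List.finRange n).flatMap (fun i => (List.finRange (n + 1)).flatMap fun j =>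
      [[(.c i.succ j.succ, true), (.c i.castSucc j.succ, false)],
       [(.c i.succ j.succ, true), (.x (Fin.castAdd r i), false), (.c i.castSucc j.castSucc, false)],
       [(.c i.succ j.succ, false), (.c i.castSucc j.succ, true), (.x (Fin.castAdd r i), true)],
       [(.c i.succ j.succ, false), (.c i.castSucc j.succ, true),
        (.c i.castSucc j.castSucc, true)]]) ++
    (List.finRange n).flatMap (fun i =>
      [[(.y (Fin.castAdd r i), false), (.z (Fin.castAdd r i), true), (.x (Fin.castAdd r i), true)],
       [(.y (Fin.castAdd r i), false), (.z (Fin.castAdd r i), false),
        (.x (Fin.castAdd r i), false)]]) ++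
    (List.finRange r).flatMap (fun i => [true, false].flatMap fun b => [true, false].map fun b' =>
      [(.y (Fin.natAdd n i), false), (.z (Fin.natAdd n i), b), (.x (Fin.natAdd n i), b'),
       (.c (Fin.last n) ⟨n / 2 + 1, by omega⟩, !(b ^^ b'))]) ++
    [(List.finRange (n + r)).map fun i => (.y i, true)]

end Pool.Agent.Helper67.QP
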