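import Mathlib
import Pool.Agent.W856.Corner7

/-!
# Majority is far from all polynomials of low degree
-/

set_option autoImplicit false

namespace Pool.Agent.Helper67.QP

open Finset Pool.Agent.W856.Corner

variable {n : ℕ} {K : Type} [Field K]

/-- more than half of the coordinates are one -/
def majb (y : V n) : Bool := decide (n / 2 + 1 ≤ (sp y).card)

theorem sp_compl (y : V n) : (sp (y + fun _ => 1)).card + (sp y).card = n := by
  classical
  have h : sp (y + fun _ => 1) = (sp y)ᶜ := by
    ext i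
    unfold sp
    simp only [Finset.mem_filter, Finset.mem_univ, true_and, Finset.mem_compl, Pi.add_apply]
    rcases zmod2_c (y i) with h | h <;> rw [h] <;> decide
  rw [h, Finset.card_compl, Fintype.card_fin]
  have := Finset.card_le_univ (sp y)
  rw [Fintype.card_fin] at this
  omega

theorem maj_indep (D : ℕ) (F : V n → Bool) (hF : LB K D F) (G : Finset (V n))
    (hG : ∀ y ∈ G, F y = majb y) :
    LinearIndependent K (fun z : G => ev (K := K) (n / 2 + D) z.1) := by
  classical
  rw [Fintype.linearIndependent_iff]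
  intro c hc
  have hlin : ∀ h ∈ LK K n (n / 2 + D), ∑ z : G, c z * h z.1 = 0 := by
    intro h hh
    have h1 : (∑ z : G, c z • ev (K := K) (n / 2 + D) z.1) ⟨h, hh⟩ = 0 := by rw [hc]; rfl
    rw [LinearMap.sum_apply] at h1
    exact h1
  -- the points with majority one
  set G1 : Finset (V n) := G.filter fun y => majb y = true with hG1
  set G0 : Finset (V n) := G.filter fun y => majb y = false with hG0
  have hext : ∀ (G' : Finset (V n)) (g : V n → K), (∀ y ∈ G, g y = if y ∈ G' then 1 else 0) →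
      G' ⊆ G → g ∈ LK K n D → LinearIndependent K (fun z : G' => ev (K := K) (n / 2) z.1) →
      ∀ z (hz : z ∈ G) , z ∈ G' → c ⟨z, hz⟩ = 0 := by
    intro G' g hg hsub hgD hind z hz hz'
    rw [Fintype.linearIndependent_iff] at hind
    have h1 : ∑ w : G', c ⟨w.1, hsub w.2⟩ • ev (K := K) (n / 2) w.1 = 0 := by
      apply LinearMap.ext
      intro h
      rw [LinearMap.sum_apply]
      show ∑ w : G', c ⟨w.1, hsub w.2⟩ * h.1 w.1 = 0
      have h2 := hlin _ (LK_mul h.2 hgD)
      rw [← h2]
      have h3 : ∀ w : G, c w * ((h.1 * g) w.1) = if w.1 ∈ G' then c w * h.1 w.1 else 0 := by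
        intro w
        rw [Pi.mul_apply, hg w.1 w.2]
        split_ifs <;> ring
      rw [Finset.sum_congr rfl fun w _ => h3 w]
      rw [← Finset.sum_filter]
      refine Finset.sum_bij (fun w _ => ⟨w.1, hsub w.2⟩) ?_ ?_ ?_ ?_
      · intro w _
        rw [Finset.mem_filter]
        exact ⟨Finset.mem_univ _, w.2⟩
      · intro w _ w' _ h
        exact Subtype.ext (congrArg (fun t : G => t.1) h)
      · intro w hw
        rw [Finset.mem_filter] at hw
        exact ⟨⟨w.1, hw.2⟩, Finset.mem_univ _, rfl⟩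
      · intro w _
        rfl
    exact hind (fun w => c ⟨w.1, hsub w.2⟩) h1 ⟨z, hz'⟩
  have hb1 : ∀ y ∈ G, bi K (F y) = if y ∈ G1 then 1 else 0 := by
    intro y hy
    rw [hG y hy]
    unfold bi
    have : y ∈ G1 ↔ majb y = true := by
      rw [hG1, Finset.mem_filter]
      exact ⟨fun h => h.2, fun h => ⟨hy, h⟩⟩
    simp only [this]
  have hb0 : ∀ y ∈ G, bi K (!F y) = if y ∈ G0 then 1 else 0 := by
    intro y hy
    rw [hG y hy]
    unfold bi
    have : y ∈ G0 ↔ majb y = false := by
      rw [hG0, Finset.mem_filter]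
      exact ⟨fun h => h.2, fun h => ⟨hy, h⟩⟩
    simp only [this, Bool.not_eq_true']
  rintro ⟨z, hz⟩
  cases hm : majb z with
  | true =>
    refine hext G1 _ hb1 (Finset.filter_subset _ _) hF ?_ z hz ?_
    · refine ev_indep (n / 2) (fun _ => 1) G1 fun w hw => ?_
      have h1 : n / 2 + 1 ≤ (sp w).card := by
        rw [hG1, Finset.mem_filter] at hw
        simpa [majb] using hw.2
      have := sp_compl w
      omega
    · rw [hG1, Finset.mem_filter]
      exact ⟨hz, hm⟩
  | false =>
    refine hext G0 _ hb0 (Finset.filter_subset _ _) (LB_not hF) ?_ z hz ?_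
    · refine ev_indep (n / 2) 0 G0 fun w hw => ?_
      rw [add_zero]
      have h1 : ¬ n / 2 + 1 ≤ (sp w).card := by
        rw [hG0, Finset.mem_filter] at hw
        simpa [majb] using hw.2
      omega
    · rw [hG0, Finset.mem_filter]
      exact ⟨hz, hm⟩

theorem maj_far (D : ℕ) (F : V n → Bool) (hF : LB K D F) :
    2 ^ n ≤ (univ.filter fun y : V n => F y ≠ majb y).card +
      ∑ i ∈ range (n / 2 + D + 1), n.choose i := by
  classical
  set G : Finset (V n) := univ.filter fun y => F y = majb y with hG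
  have h1 := maj_indep (K := K) D F hF G fun y hy => (Finset.mem_filter.1 hy).2
  have h2 := h1.fintype_card_le_finrank
  rw [Fintype.card_coe] at h2
  have h3 : Module.finrank K (LK K n (n / 2 + D) →ₗ[K] K) ≤ ∑ i ∈ range (n / 2 + D + 1), n.choose i := by
    have : Module.finrank K (LK K n (n / 2 + D) →ₗ[K] K) = Module.finrank K (LK K n (n / 2 + D)) :=
      Subspace.dual_finrank_eq
    rw [this]
    exact finrank_LK n _
  have h4 := Finset.card_filter_add_card_filter_not (s := (univ : Finset (V n)))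
    (fun y => F y = majb y)
  rw [Finset.card_univ] at h4
  have h5 : Fintype.card (V n) = 2 ^ n := by
    rw [Fintype.card_fun, ZMod.card, Fintype.card_fin]
  rw [h5] at h4
  have h6 := h2.trans h3
  show 2 ^ n ≤ (univ.filter fun y : V n => ¬ F y = majb y).card + _
  rw [← h4]
  have h7 : G.card = (univ.filter fun y : V n => F y = majb y).card := rfl
  omega

/-! ### Numerical bounds -/

theorem central_sq (m : ℕ) : (Nat.centralBinom m) ^ 2 * (2 * m + 1) ≤ 16 ^ m := by
  induction m with
  | zero => simp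
  | succ m ih =>
    have h := Nat.succ_mul_centralBinom_succ m
    have h1 : (m + 1) ^ 2 * ((Nat.centralBinom (m + 1)) ^ 2 * (2 * (m + 1) + 1)) ≤
        (m + 1) ^ 2 * 16 ^ (m + 1) := by
      have e1 : (m + 1) ^ 2 * ((Nat.centralBinom (m + 1)) ^ 2 * (2 * (m + 1) + 1)) =
          ((m + 1) * Nat.centralBinom (m + 1)) ^ 2 * (2 * m + 3) := by ring
      rw [e1, h]
      have e2 : (2 * (2 * m + 1) * m.centralBinom) ^ 2 * (2 * m + 3) =
          4 * ((2 * m + 1) * (2 * m + 3)) * ((Nat.centralBinom m) ^ 2 * (2 * m + 1)) := by ring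
      rw [e2]
      calc 4 * ((2 * m + 1) * (2 * m + 3)) * ((Nat.centralBinom m) ^ 2 * (2 * m + 1))
          ≤ 4 * (4 * (m + 1) ^ 2) * 16 ^ m := by
            refine Nat.mul_le_mul (Nat.mul_le_mul_left _ ?_) ih
            nlinarith
        _ = (m + 1) ^ 2 * 16 ^ (m + 1) := by ring
    exact Nat.le_of_mul_le_mul_left h1 (by positivity)

theorem choose_half_sq (n : ℕ) : (n.choose (n / 2)) ^ 2 * (n + 1) ≤ 4 ^ n := by
  rcases Nat.even_or_odd' n with ⟨m, rfl | rfl⟩
  · have h := central_sq m
    rw [Nat.centralBinom] at h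
    have e : 2 * m / 2 = m := by omega
    rw [e]
    calc _ ≤ 16 ^ m := h
      _ = 4 ^ (2 * m) := by rw [pow_mul]; norm_num
  · have h := central_sq (m + 1)
    have e : (2 * m + 1) / 2 = m := by omega
    rw [e]
    have h2 : Nat.centralBinom (m + 1) = 2 * (2 * m + 1).choose m := by
      rw [Nat.centralBinom, show 2 * (m + 1) = (2 * m + 1) + 1 by ring, Nat.choose_succ_succ]
      have : (2 * m + 1).choose m.succ = (2 * m + 1).choose m :=
        Nat.choose_symm_of_eq_add (by omega)
      omega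
    rw [h2] at h
    have e3 : (16 : ℕ) ^ (m + 1) = 4 * 4 ^ (2 * m + 1) := by
      rw [show 4 * 4 ^ (2 * m + 1) = 4 ^ (2 * (m + 1)) by ring, pow_mul]; norm_num
    rw [e3] at h
    have e4 : (2 * (2 * m + 1).choose m) ^ 2 * (2 * (m + 1) + 1) =
        4 * (((2 * m + 1).choose m) ^ 2 * (2 * m + 3)) := by ring
    rw [e4] at h
    have h5 := Nat.le_of_mul_le_mul_left h (by norm_num : 0 < 4)
    refine le_trans (Nat.mul_le_mul_left _ ?_) h5
    omega

theorem half_sum (n : ℕ) : 2 * ∑ i ∈ range (n / 2 + 1), n.choose i ≤ 2 ^ n + n.choose (n / 2) := by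
  have h1 : ∑ i ∈ range (n + 1), n.choose i = 2 ^ n := Nat.sum_range_choose n
  have h2 : ∑ i ∈ range (n / 2 + 1), n.choose i =
      ∑ i ∈ Finset.Ico (n - n / 2) (n + 1), n.choose i := by
    refine Finset.sum_bij (fun i _ => n - i) ?_ ?_ ?_ ?_
    · intro i hi
      rw [Finset.mem_range] at hi
      rw [Finset.mem_Ico]
      omega
    · intro i hi j hj h
      rw [Finset.mem_range] at hi hj
      omega
    · intro j hj
      rw [Finset.mem_Ico] at hj
      exact ⟨n - j, Finset.mem_range.2 (by omega), by omega⟩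
    · intro i hi
      rw [Finset.mem_range] at hi
      exact (Nat.choose_symm (by omega)).symm
  have h3 : ∑ i ∈ Finset.Ico (n - n / 2) (n + 1), n.choose i ≤
      ∑ i ∈ Finset.Ico (n / 2 + 1) (n + 1), n.choose i + n.choose (n / 2) := by
    have hsub : Finset.Ico (n - n / 2) (n + 1) ⊆ insert (n / 2) (Finset.Ico (n / 2 + 1) (n + 1)) := by
      intro i hi
      rw [Finset.mem_Ico] at hi
      rw [Finset.mem_insert, Finset.mem_Ico]
      omega
    refine (Finset.sum_le_sum_of_subset hsub).trans ?_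
    rw [Finset.sum_insert (by simp)]
    omega
  have h4 : ∑ i ∈ range (n / 2 + 1), n.choose i + ∑ i ∈ Finset.Ico (n / 2 + 1) (n + 1), n.choose i =
      2 ^ n := by
    rw [← h1, Finset.sum_range_add_sum_Ico _ (by omega)]
  omega

/-- majority is at distance at least `2 ^ n / 4` from degree `D` if `16 (D + 1)² ≤ n + 1`. -/
theorem maj_quarter (D : ℕ) (hD : 16 * (D + 1) ^ 2 ≤ n + 1) (F : V n → Bool) (hF : LB K D F) :
    2 ^ n ≤ 4 * (univ.filter fun y : V n => F y ≠ majb y).card := by
  have h1 := maj_far (K := K) D F hF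
  have h2 : ∑ i ∈ range (n / 2 + D + 1), n.choose i ≤
      ∑ i ∈ range (n / 2 + 1), n.choose i + D * n.choose (n / 2) := by
    rw [show n / 2 + D + 1 = (n / 2 + 1) + D by ring, Finset.sum_range_add]
    refine Nat.add_le_add_left ?_ _
    calc ∑ x ∈ range D, n.choose (n / 2 + 1 + x) ≤ ∑ _x ∈ range D, n.choose (n / 2) :=
          Finset.sum_le_sum fun i _ => Nat.choose_le_middle _ _
      _ = D * n.choose (n / 2) := by rw [Finset.sum_const, Finset.card_range, smul_eq_mul]
  have h3 := half_sum n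
  have h4 : 4 * (D + 1) * n.choose (n / 2) ≤ 2 ^ n := by
    have h5 := choose_half_sq n
    have h6 : (4 * (D + 1) * n.choose (n / 2)) ^ 2 ≤ (2 ^ n) ^ 2 := by
      calc (4 * (D + 1) * n.choose (n / 2)) ^ 2 = (16 * (D + 1) ^ 2) * (n.choose (n / 2)) ^ 2 := by ring
        _ ≤ (n + 1) * (n.choose (n / 2)) ^ 2 := Nat.mul_le_mul_right _ hD
        _ = (n.choose (n / 2)) ^ 2 * (n + 1) := by ring
        _ ≤ 4 ^ n := h5
        _ = (2 ^ n) ^ 2 := by rw [← pow_mul, mul_comm n 2, pow_mul]; norm_num
    exact (Nat.pow_le_pow_iff_left (by norm_num)).1 h6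
  nlinarith

end Pool.Agent.Helper67.QP
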