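import Mathlib
import Pool.Agent.Helper67.QP.Maj
import Pool.Agent.Helper67.QP.Defs

/-!
# Polynomials of low degree for circuits and for a big disjunction
-/

set_option autoImplicit false

namespace Pool.Agent.Helper67.QP

open Finset Pool.Agent.W856

variable {ι : Type} {n : ℕ}

/-- a substitution of coordinates and constants for the variables -/
def subst (g : ι → Fin n ⊕ Bool) (y : Corner.V n) : ι → Bool := fun v =>
  match g v with
  | .inl i => decide (y i = 1)
  | .inr b => b

theorem hasDegree_subst {p D : ℕ} [Fact p.Prime] {f : (ι → Bool) → Bool} (h : HasDegree p D f)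
    (g : ι → Fin n ⊕ Bool) : Corner.HasDegree p D (fun y => f (subst g y)) := by
  classical
  obtain ⟨P, hP, he⟩ := h
  let G : ι → MvPolynomial (Fin n) (ZMod p) := fun v =>
    match g v with
    | .inl i => MvPolynomial.X i
    | .inr b => MvPolynomial.C (if b = true then 1 else 0)
  have hG : ∀ v, (G v).totalDegree ≤ 1 := by
    intro v
    show (match g v with
      | .inl i => MvPolynomial.X i
      | .inr b => MvPolynomial.C (if b = true then 1 else 0) :
        MvPolynomial (Fin n) (ZMod p)).totalDegree ≤ 1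
    cases g v with
    | inl i => exact (MvPolynomial.totalDegree_X i).le
    | inr b =>
      show (MvPolynomial.C (if b = true then 1 else 0) :
        MvPolynomial (Fin n) (ZMod p)).totalDegree ≤ 1
      rw [MvPolynomial.totalDegree_C]
      exact Nat.zero_le _
  refine ⟨MvPolynomial.bind₁ G P, ?_, ?_⟩
  · rw [MvPolynomial.bind₁, MvPolynomial.aeval_def, MvPolynomial.eval₂_eq]
    refine MvPolynomial.totalDegree_finsetSum_le fun m hm => ?_
    refine (MvPolynomial.totalDegree_mul _ _).trans ?_
    rw [MvPolynomial.algebraMap_eq, MvPolynomial.totalDegree_C, Nat.zero_add]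
    refine (MvPolynomial.totalDegree_finsetProd _ _).trans ?_
    refine le_trans (Finset.sum_le_sum fun v _ => ?_)
      ((MvPolynomial.le_totalDegree hm).trans hP)
    refine (MvPolynomial.totalDegree_pow _ _).trans ?_
    calc m v * (G v).totalDegree ≤ m v * 1 := Nat.mul_le_mul_left _ (hG v)
      _ = m v := Nat.mul_one _
  · intro y
    show _ = if f (subst g y) = true then 1 else 0
    rw [← he (subst g y)]
    have e : (MvPolynomial.eval fun i => if y i = 1 then (1 : ZMod p) else 0)
        (MvPolynomial.bind₁ G P) = MvPolynomial.eval₂Hom (RingHom.id (ZMod p))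
        (fun i => if y i = 1 then (1 : ZMod p) else 0) (MvPolynomial.bind₁ G P) := rfl
    rw [e, MvPolynomial.eval₂Hom_bind₁]
    have e2 : (fun v => (MvPolynomial.eval₂Hom (RingHom.id (ZMod p))
        fun i => if y i = 1 then (1 : ZMod p) else 0) (G v)) =
        fun v => if subst g y v = true then (1 : ZMod p) else 0 := by
      funext v
      show (MvPolynomial.eval₂Hom (RingHom.id (ZMod p))
        fun i => if y i = 1 then (1 : ZMod p) else 0) (match g v with
        | .inl i => MvPolynomial.X i
        | .inr b => MvPolynomial.C (if b = true then 1 else 0)) =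
        if (match g v with
          | .inl i => decide (y i = 1)
          | .inr b => b) = true then (1 : ZMod p) else 0
      cases g v with
      | inl i => simp
      | inr b => simp
    rw [e2]
    rfl



/-- the substituted circuit -/
def Circuit.sub {p D : ℕ} [Fact p.Prime] (C : Circuit p D ι) (g : ι → Fin n ⊕ Bool) :
    Corner.Circuit p n D where
  N := C.N
  val := fun i y => C.val i (subst g y)
  depth := C.depth
  andOr := C.andOr
  rule := by
    intro i
    rcases C.rule i with ⟨h1, h2⟩ | ⟨h1, j, h2, h3, h4⟩ | ⟨h1, J, r, h2, h3⟩ | ⟨h1, J, h2, h3⟩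
    · exact Or.inl ⟨h1, hasDegree_subst h2 g⟩
    · exact Or.inr (Or.inl ⟨h1, j, h2, h3, fun y => h4 _⟩)
    · exact Or.inr (Or.inr (Or.inl ⟨h1, J, r, h2, fun y => h3 _⟩))
    · refine Or.inr (Or.inr (Or.inr ⟨h1, J, h2, ?_⟩))
      rcases h3 with h3 | h3
      · exact Or.inl fun y => h3 _
      · exact Or.inr fun y => h3 _

/-- averaging -/
theorem exists_good {Y Ω : Type} [Fintype Y] [Fintype Ω] [Nonempty Ω] (B : Y → Ω → Prop) (a c : ℕ)
    (h : ∀ y, Nat.card {w // B y w} * a ≤ c * Fintype.card Ω) :
    ∃ w, Nat.card {y // B y w} * a ≤ c * Fintype.card Y := by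
  classical
  by_contra hcon
  push Not at hcon
  have h1 : ∑ w : Ω, Nat.card {y // B y w} * a = ∑ y : Y, Nat.card {w // B y w} * a := by
    rw [← Finset.sum_mul, ← Finset.sum_mul]
    congr 1
    have e1 : ∀ w : Ω, Nat.card {y // B y w} = ∑ y : Y, if B y w then 1 else 0 := by
      intro w
      rw [Nat.card_eq_fintype_card, Fintype.card_subtype, Finset.card_filter]
    have e2 : ∀ y : Y, Nat.card {w // B y w} = ∑ w : Ω, if B y w then 1 else 0 := by
      intro y
      rw [Nat.card_eq_fintype_card, Fintype.card_subtype, Finset.card_filter]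
    rw [Finset.sum_congr rfl fun w _ => e1 w, Finset.sum_congr rfl fun y _ => e2 y,
      Finset.sum_comm]
  have h2 : ∑ y : Y, Nat.card {w // B y w} * a ≤ Fintype.card Y * (c * Fintype.card Ω) := by
    calc _ ≤ ∑ _y : Y, c * Fintype.card Ω := Finset.sum_le_sum fun y _ => h y
      _ = _ := by rw [Finset.sum_const, Finset.card_univ, smul_eq_mul]
  have h3 : Fintype.card Ω * (c * Fintype.card Y) < ∑ w : Ω, Nat.card {y // B y w} * a := by
    calc Fintype.card Ω * (c * Fintype.card Y) = ∑ _w : Ω, c * Fintype.card Y := by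
          rw [Finset.sum_const, Finset.card_univ, smul_eq_mul]
      _ < _ := Finset.sum_lt_sum_of_nonempty Finset.univ_nonempty fun w _ => hcon w
  rw [h1] at h3
  have h4 : Fintype.card Ω * (c * Fintype.card Y) = Fintype.card Y * (c * Fintype.card Ω) := by
    ring
  omega

open Classical in
/-- A polynomial of low degree for a circuit. -/
theorem computed_approx {p D d S : ℕ} [Fact p.Prime] {f : (ι → Bool) → Bool}
    (h : Computed p D d S f) (g : ι → Fin n ⊕ Bool) (t : ℕ) (ht : 1 ≤ t) :
    ∃ P : Corner.V n → Bool, Corner.LB (ZMod p) (D * ((p - 1) * t) ^ d) P ∧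
      (univ.filter fun y => P y ≠ f (subst g y)).card * 2 ^ t ≤ S * 2 ^ n := by
  obtain ⟨C, hS, hd, i, hi⟩ := h
  obtain ⟨P, hP1, hP2⟩ := Corner.approx (C.sub g) t ht
  obtain ⟨w, hw⟩ := exists_good (fun y w => ∃ i, P w i y ≠ (C.sub g).val i y) (2 ^ t)
    (C.sub g).andOr.card hP2
  have hp := (Fact.out : p.Prime).two_le
  refine ⟨P w i, Corner.LB_mono ?_ (hP1 w i), ?_⟩
  · refine Nat.mul_le_mul_left _ (Nat.pow_le_pow_right ?_ (hd i))
    exact Nat.mul_pos (by omega) ht
  · have hcard : Fintype.card (Corner.V n) = 2 ^ n := by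
      rw [Fintype.card_fun, ZMod.card, Fintype.card_fin]
    rw [hcard] at hw
    refine le_trans (Nat.mul_le_mul_right _ ?_) (hw.trans (Nat.mul_le_mul_right _ hS))
    rw [Nat.card_eq_fintype_card, Fintype.card_subtype]
    refine Finset.card_le_card fun y hy => ?_
    rw [Finset.mem_filter] at hy ⊢
    refine ⟨Finset.mem_univ _, i, ?_⟩
    rw [show (C.sub g).val i y = f (subst g y) from hi _]
    exact hy.2

open Classical in
/-- A polynomial of low degree for a disjunction. -/
theorem or_approx {p D : ℕ} [Fact p.Prime] {Q : Type} [Fintype Q] (c : Q → Corner.V n → Bool)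
    (hc : ∀ q, Corner.LB (ZMod p) D (c q)) (t : ℕ) :
    ∃ P : Corner.V n → Bool, Corner.LB (ZMod p) (t * ((p - 1) * D)) P ∧
      (univ.filter fun y => P y ≠ decide (∃ q, c q y = true)).card * 2 ^ t ≤ 2 ^ n := by
  rcases isEmpty_or_nonempty Q with hQ | hQ
  · refine ⟨fun _ => false, Corner.LB_const _ _, ?_⟩
    have : (univ.filter fun y : Corner.V n => (false : Bool) ≠ decide (∃ q, c q y = true)) = ∅ := by
      rw [Finset.filter_eq_empty_iff]
      intro y _
      simp
    rw [this]
    simp
  set N := Fintype.card Q with hN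
  have hN0 : 0 < N := Fintype.card_pos
  let e : Q ≃ Fin N := Fintype.equivFin Q
  let c' : Fin N → Corner.V n → Bool := fun i => c (e.symm i)
  let i0 : Fin N := ⟨0, hN0⟩
  have hex : ∀ y, (∃ q, c q y = true) ↔ ∃ i, c' i y = true := fun y =>
    ⟨fun ⟨q, hq⟩ => ⟨e q, by show c (e.symm (e q)) y = true; rw [e.symm_apply_apply]; exact hq⟩,
      fun ⟨i, hi⟩ => ⟨_, hi⟩⟩
  obtain ⟨w, hw⟩ := exists_good (Y := Corner.V n) (Ω := Corner.Om p N t)
    (fun y w => (∃ i, c' i y = true) ∧ ∀ τ : Fin t, ∑ j ∈ univ, w (i0, τ) j *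
      Corner.bi (ZMod p) (c' j y) = 0) (2 ^ t) 1 (by
      intro y
      rw [Nat.one_mul]
      by_cases hy : ∃ i, c' i y = true
      · have h1 := Corner.bad_count (t := t) i0 univ (fun j => Corner.bi (ZMod p) (c' j y)) (by
          obtain ⟨j, hj⟩ := hy
          refine ⟨j, Finset.mem_univ _, ?_⟩
          rw [hj]; simp [Corner.bi])
        refine le_trans (Nat.mul_le_mul_right _ (le_of_eq ?_)) h1
        rw [Nat.card_eq_fintype_card, Fintype.card_subtype]
        congr 1
        ext w
        simp only [Finset.mem_filter, Finset.mem_univ, true_and]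
        exact ⟨fun h => h.2, fun h => ⟨hy, h⟩⟩
      · have : IsEmpty {w : Corner.Om p N t // (∃ i, c' i y = true) ∧ ∀ τ : Fin t,
            ∑ j ∈ univ, w (i0, τ) j * Corner.bi (ZMod p) (c' j y) = 0} := ⟨fun w => hy w.2.1⟩
        rw [Nat.card_of_isEmpty, Nat.zero_mul]
        exact Nat.zero_le _)
  refine ⟨fun y => !Corner.zeroS univ (fun τ => w (i0, τ)) c' y, Corner.LB_not
    (Corner.zeroS_LB univ _ c' fun j _ => hc _), ?_⟩
  have hcard : Fintype.card (Corner.V n) = 2 ^ n := by
    rw [Fintype.card_fun, ZMod.card, Fintype.card_fin]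
  rw [hcard, Nat.one_mul] at hw
  refine le_trans (Nat.mul_le_mul_right _ ?_) hw
  rw [Nat.card_eq_fintype_card, Fintype.card_subtype]
  refine Finset.card_le_card fun y hy => ?_
  rw [Finset.mem_filter] at hy ⊢
  refine ⟨Finset.mem_univ _, ?_⟩
  have h1 := hy.2
  by_cases hex' : ∃ i, c' i y = true
  · refine ⟨hex', ?_⟩
    have h2 : decide (∃ q, c q y = true) = true := by
      rw [decide_eq_true_eq]; exact (hex y).2 hex'
    rw [h2] at h1
    have h3 : Corner.zeroS univ (fun τ => w (i0, τ)) c' y = true := by simpa using h1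
    unfold Corner.zeroS at h3
    simpa using h3
  · exfalso
    apply h1
    have h2 : decide (∃ q, c q y = true) = false := by
      rw [decide_eq_false_iff_not]; exact fun h => hex' ((hex y).1 h)
    rw [h2]
    have h3 : Corner.zeroS univ (fun τ => w (i0, τ)) c' y = true := by
      unfold Corner.zeroS
      rw [decide_eq_true_eq]
      intro τ
      refine Finset.sum_eq_zero fun j _ => ?_
      have : c' j y = false := by
        by_contra hv
        exact hex' ⟨j, by simpa using hv⟩
      rw [this]; simp [Corner.bi]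
    show (!Corner.zeroS univ (fun τ => w (i0, τ)) c' y) = false
    rw [h3]
    rfl

theorem LB_and {p D D' : ℕ} [Fact p.Prime] {f f' : Corner.V n → Bool}
    (hf : Corner.LB (ZMod p) D f) (hf' : Corner.LB (ZMod p) D' f') :
    Corner.LB (ZMod p) (D + D') (fun y => f y && f' y) := by
  unfold Corner.LB
  have e : (fun y => Corner.bi (ZMod p) (f y && f' y)) =
      (fun y => Corner.bi (ZMod p) (f y)) * fun y => Corner.bi (ZMod p) (f' y) := by
    funext y
    rw [Pi.mul_apply]
    cases f y <;> cases f' y <;> simp [Corner.bi]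
  rw [e]
  exact Corner.LK_mul hf hf'

end Pool.Agent.Helper67.QP
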