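import Mathlib
import Pool.Agent.Helper67.QP.Defs

/-!
# Strategies from refutations
-/

set_option autoImplicit false
set_option linter.unusedSectionVars false

namespace Pool.Agent.Helper67.QP

open Classical

variable {ι : Type} [LinearOrder ι] [Fintype ι]

/-- The shape of the formulas: `x 0, z 0, x 1, z 1, …` and then further existential variables; the
matrix can be satisfied as soon as the universal player has not answered `z i = f i x`. -/
structure Shape (Φ : QCNF ι) (m : ℕ) (x z : Fin m → ι) (f : Fin m → (Fin m → Bool) → Bool)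
    (ext : Fin m → (ι → Bool) → ι → Bool) : Prop where
  ex_x : ∀ i, Φ.ex (x i) = true
  ex_z : ∀ i, Φ.ex (z i) = false
  univ : ∀ v, Φ.ex v = false → ∃ i, v = z i
  exis : ∀ v, Φ.ex v = true → (∃ i, v = x i) ∨ ∀ i, z i < v
  x_lt_z : ∀ i, x i < z i
  z_lt_x : ∀ i j, i < j → z i < x j
  f_dep : ∀ i (a b : Fin m → Bool), (∀ j, j ≤ i → a j = b j) → f i a = f i b
  f_flip : ∀ i (a b : Fin m → Bool), (∀ j, j < i → a j = b j) → a i ≠ b i → f i a ≠ f i b
  ext_eq : ∀ i a v, (Φ.ex v = false ∨ ∃ j, v = x j) → ext i a v = a v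
  ext_dep : ∀ i a b, (∀ j, a (x j) = b (x j)) → ∀ v, Φ.ex v = true → ext i a v = ext i b v
  ext_holds : ∀ i a, a (z i) ≠ f i (fun j => a (x j)) → Φ.Holds (ext i a)

namespace Shape

variable {Φ : QCNF ι} {m : ℕ} {x z : Fin m → ι} {f : Fin m → (Fin m → Bool) → Bool}
  {ext : Fin m → (ι → Bool) → ι → Bool}

theorem z_lt_z (S : Shape Φ m x z f ext) {i j : Fin m} (h : i < j) : z i < z j :=
  (S.z_lt_x i j h).trans (S.x_lt_z j)

theorem z_le_z (S : Shape Φ m x z f ext) {i j : Fin m} (h : i ≤ j) : z i ≤ z j := by
  rcases h.lt_or_eq with h | h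
  · exact (S.z_lt_z h).le
  · rw [h]

theorem z_lt_iff (S : Shape Φ m x z f ext) {i j : Fin m} : z i < z j ↔ i < j :=
  ⟨fun h => by
    by_contra hc
    exact absurd h (not_lt.2 (S.z_le_z (not_lt.1 hc))), S.z_lt_z⟩

theorem x_lt_iff (S : Shape Φ m x z f ext) {i j : Fin m} : x i < z j ↔ i ≤ j :=
  ⟨fun h => by
    by_contra hc
    exact absurd h (not_lt.2 (S.z_lt_x j i (not_le.1 hc)).le),
   fun h => (S.x_lt_z i).trans_le (S.z_le_z h)⟩

theorem x_ne_z (S : Shape Φ m x z f ext) (i j : Fin m) : x i ≠ z j := by
  intro h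
  have h1 := S.ex_x i
  rw [h, S.ex_z] at h1
  exact Bool.false_ne_true h1

end Shape

section Ref

variable {Φ : QCNF ι} {k s : ℕ} (R : Refutation Φ k s)

theorem step_choice (j : Fin s) (a : ι → Bool) : ∃ (rnd : ι → ℕ) (H : (ι → Bool) → ι → Bool),
    (R.line j).val a = false → (∀ v, rnd v < k) ∧
    (∀ u v, u ∉ (R.line j).ctx → v ∉ (R.line j).ctx → Φ.ex u = false → Φ.ex v = true → u < v →
      rnd u ≤ rnd v) ∧
    (∀ b b' u, (∀ v, v ∉ (R.line j).ctx → Φ.ex v = true → rnd v < rnd u → b v = b' v) →
      H b u = H b' u) ∧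
    ∀ b, ¬ (Φ.Holds (Φ.play (R.line j).ctx a b (H b)) ∧
      ∀ i < j, (R.line i).val (Φ.play (R.line j).ctx a b (H b)) = true) := by
  by_cases h : (R.line j).val a = false
  · obtain ⟨rnd, H, h1⟩ := R.step j a h
    exact ⟨rnd, H, fun _ => h1⟩
  · exact ⟨fun _ => 0, fun _ _ => false, fun h' => absurd h' h⟩

/-- The rounds of an inference. -/
noncomputable def rn (j : Fin s) (a : ι → Bool) : ι → ℕ := (step_choice R j a).choose

/-- The strategy of an inference. -/
noncomputable def st (j : Fin s) (a : ι → Bool) : (ι → Bool) → ι → Bool :=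
  (step_choice R j a).choose_spec.choose

theorem st_spec {j : Fin s} {a : ι → Bool} (h : (R.line j).val a = false) :
    (∀ v, rn R j a v < k) ∧
    (∀ u v, u ∉ (R.line j).ctx → v ∉ (R.line j).ctx → Φ.ex u = false → Φ.ex v = true → u < v →
      rn R j a u ≤ rn R j a v) ∧
    (∀ b b' u, (∀ v, v ∉ (R.line j).ctx → Φ.ex v = true → rn R j a v < rn R j a u → b v = b' v) →
      st R j a b u = st R j a b' u) ∧
    ∀ b, ¬ (Φ.Holds (Φ.play (R.line j).ctx a b (st R j a b)) ∧
      ∀ i < j, (R.line i).val (Φ.play (R.line j).ctx a b (st R j a b)) = true) :=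
  (step_choice R j a).choose_spec.choose_spec h

/-- The order of the pairs of a line and an assignment. -/
noncomputable def rank (p : Fin s × (ι → Bool)) : ℕ :=
  p.1.val * Fintype.card (ι → Bool) + (Fintype.equivFin (ι → Bool) p.2).val

theorem rank_lt {p q : Fin s × (ι → Bool)} (h : p.1 < q.1) : rank p < rank q := by
  unfold rank
  have h1 := (Fintype.equivFin (ι → Bool) p.2).isLt
  have h2 : p.1.val + 1 ≤ q.1.val := h
  calc p.1.val * Fintype.card (ι → Bool) + (Fintype.equivFin (ι → Bool) p.2).val
      < p.1.val * Fintype.card (ι → Bool) + Fintype.card (ι → Bool) := by omega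
    _ = (p.1.val + 1) * Fintype.card (ι → Bool) := by ring
    _ ≤ q.1.val * Fintype.card (ι → Bool) := Nat.mul_le_mul_right _ h2
    _ ≤ _ := Nat.le_add_right _ _

theorem rank_inj {p q : Fin s × (ι → Bool)} (h : rank p = rank q) : p = q := by
  rcases lt_trichotomy p.1 q.1 with h1 | h1 | h1
  · exact absurd h (rank_lt h1).ne
  · unfold rank at h
    rw [h1] at h
    have h2 := Nat.add_left_cancel h
    have h3 := (Fintype.equivFin (ι → Bool)).injective (Fin.ext h2)
    exact Prod.ext h1 h3
  · exact absurd h.symm (rank_lt h1).ne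

/-- An element of least rank. -/
noncomputable def pick (s0 : Fin s × (ι → Bool)) (A : Set (Fin s × (ι → Bool))) :
    Fin s × (ι → Bool) :=
  if h : A.Nonempty then Function.argminOn rank A h else s0

theorem pick_mem {s0 : Fin s × (ι → Bool)} {A : Set (Fin s × (ι → Bool))} (h : A.Nonempty) :
    pick s0 A ∈ A := by
  unfold pick
  rw [dif_pos h]
  exact Function.argminOn_mem _ _ _

theorem pick_le {s0 : Fin s × (ι → Bool)} {A : Set (Fin s × (ι → Bool))}
    {p : Fin s × (ι → Bool)} (h : p ∈ A) : rank (pick s0 A) ≤ rank p := by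
  unfold pick
  rw [dif_pos ⟨p, h⟩]
  exact Function.argminOn_le _ _ h

end Ref

section Main

variable {Φ : QCNF ι} {k s : ℕ} (R : Refutation Φ k s) {m : ℕ} (z : Fin m → ι)

/-- Some universal variable up to `z i` is not in the context. -/
def Early (j : Fin s) (i : Fin m) : Prop := ∃ l ≤ i, z l ∉ (R.line j).ctx

/-- The candidates before the value of `z i` is chosen. -/
def CandSet (i : Fin m) (a : ι → Bool) : Set (Fin s × (ι → Bool)) :=
  {p | (R.line p.1).val p.2 = false ∧ Early R z p.1 i ∧
    ∀ v ∈ (R.line p.1).ctx, v < z i → p.2 v = a v}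

theorem exists_last : ∃ p : Fin s × (ι → Bool), (R.line p.1).ctx = ∅ ∧
    ∀ a, (R.line p.1).val a = false := by
  obtain ⟨j, h1, h2⟩ := R.last
  exact ⟨(j, fun _ => false), h1, h2⟩

/-- The current candidate. -/
noncomputable def cur (i : Fin m) (a : ι → Bool) : Fin s × (ι → Bool) :=
  pick (exists_last R).choose (CandSet R z i a)

/-- The move at `z i`. -/
noncomputable def mv (i : Fin m) (a : ι → Bool) : Bool :=
  if z i ∈ (R.line (cur R z i a).1).ctx then (cur R z i a).2 (z i) else
    st R (cur R z i a).1 (cur R z i a).2 a (z i)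

theorem candSet_nonempty (i : Fin m) (a : ι → Bool) : (CandSet R z i a).Nonempty := by
  obtain ⟨p, h1, h2⟩ := exists_last R
  refine ⟨p, h2 _, ⟨i, le_rfl, ?_⟩, ?_⟩
  · rw [h1]; exact Set.notMem_empty _
  · intro v hv
    rw [h1] at hv
    exact absurd hv (Set.notMem_empty _)

theorem cur_mem (i : Fin m) (a : ι → Bool) : cur R z i a ∈ CandSet R z i a :=
  pick_mem (candSet_nonempty R z i a)

theorem cur_le {i : Fin m} {a : ι → Bool} {p : Fin s × (ι → Bool)} (h : p ∈ CandSet R z i a) :
    rank (cur R z i a) ≤ rank p := pick_le h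

/-- The assignment is a play against the strategy. -/
def Follows (a : ι → Bool) : Prop := ∀ i, a (z i) = mv R z i a

variable {R z} {x : Fin m → ι} {f : Fin m → (Fin m → Bool) → Bool}
  {ext : Fin m → (ι → Bool) → ι → Bool}

theorem candSet_congr {i : Fin m} {a b : ι → Bool} (h : ∀ v, v < z i → a v = b v) :
    CandSet R z i a = CandSet R z i b := by
  ext p
  refine and_congr_right fun _ => and_congr_right fun _ => forall_congr' fun v => ?_
  refine imp_congr_right fun _ => imp_congr_right fun hv => ?_
  rw [h v hv]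

theorem cur_congr {i : Fin m} {a b : ι → Bool} (h : ∀ v, v < z i → a v = b v) :
    cur R z i a = cur R z i b := by
  unfold cur
  rw [candSet_congr h]

/-- the existential variables of an early context -/
theorem early_ex (S : Shape Φ m x z f ext) {j : Fin s} {i : Fin m} (h : Early R z j i) {v : ι}
    (hv : v ∈ (R.line j).ctx) (hex : Φ.ex v = true) : v < z i := by
  obtain ⟨l, hl, hlz⟩ := h
  have h1 : ¬ z l < v := fun hlt => hlz ((R.ok j).2 v hv hex _ hlt (S.ex_z l))
  refine (lt_of_le_of_ne (not_lt.1 h1) ?_).trans_le (S.z_le_z hl)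
  intro he
  rw [he, S.ex_z] at hex
  exact Bool.false_ne_true hex

theorem st_congr (S : Shape Φ m x z f ext) {j : Fin s} {α : ι → Bool} {i : Fin m}
    (hf : (R.line j).val α = false)
    (hz : z i ∉ (R.line j).ctx) {a b : ι → Bool}
    (h : ∀ v, v < z i → v ∉ (R.line j).ctx → rn R j α v < rn R j α (z i) → a v = b v) :
    st R j α a (z i) = st R j α b (z i) := by
  obtain ⟨_, h2, h3, _⟩ := st_spec R hf
  refine h3 _ _ _ fun v hv hex hlt => h v ?_ hv hlt
  by_contra hc
  have hne : z i ≠ v := by
    intro he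
    rw [← he, S.ex_z] at hex
    exact Bool.false_ne_true hex
  have h4 := h2 (z i) v hz hv (S.ex_z i) hex (lt_of_le_of_ne (not_lt.1 hc) hne)
  omega

theorem mv_congr (S : Shape Φ m x z f ext) {i : Fin m} {a b : ι → Bool}
    (h : ∀ v, v < z i → a v = b v) : mv R z i a = mv R z i b := by
  unfold mv
  rw [cur_congr h]
  split_ifs with hc
  · rfl
  · exact st_congr S (cur_mem R z i b).1 hc fun v hv _ _ => h v hv

/-- Every assignment to the existential variables extends to a play. -/
theorem exists_follows (S : Shape Φ m x z f ext) (a : ι → Bool) :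
    ∃ b, Follows R z b ∧ ∀ v, Φ.ex v = true → b v = a v := by
  have key : ∀ l, l ≤ m → ∃ b : ι → Bool, (∀ i : Fin m, i.val < l → b (z i) = mv R z i b) ∧
      ∀ v, Φ.ex v = true → b v = a v := by
    intro l
    induction l with
    | zero => exact fun _ => ⟨a, fun i hi => absurd hi (Nat.not_lt_zero _), fun _ _ => rfl⟩
    | succ l ih =>
      intro hl
      obtain ⟨b, hb, hb'⟩ := ih (by omega)
      refine ⟨Function.update b (z ⟨l, hl⟩) (mv R z ⟨l, hl⟩ b), ?_, ?_⟩
      · intro i hi
        have hag : ∀ v, v < z i → Function.update b (z ⟨l, hl⟩) (mv R z ⟨l, hl⟩ b) v = b v := by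
          intro v hv
          rw [Function.update_of_ne]
          intro he
          rw [he] at hv
          have := S.z_lt_iff.1 hv
          have h1 : l < i.val := this
          omega
        rw [mv_congr S hag]
        by_cases hil : i = ⟨l, hl⟩
        · rw [hil, Function.update_self]
        · rw [Function.update_of_ne, hb i]
          · have : i.val ≠ l := fun h => hil (Fin.ext h)
            omega
          · intro he
            rcases lt_trichotomy i ⟨l, hl⟩ with h1 | h1 | h1
            · exact absurd he (S.z_lt_z h1).ne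
            · exact hil h1
            · exact absurd he (S.z_lt_z h1).ne'
      · intro v hv
        rw [Function.update_of_ne, hb' v hv]
        intro he
        rw [he, S.ex_z] at hv
        exact Bool.false_ne_true hv
  obtain ⟨b, hb, hb'⟩ := key m le_rfl
  exact ⟨b, fun i => hb i i.isLt, hb'⟩

/-- Plays which agree on `x` up to a round agree on `z` up to this round. -/
theorem follows_agree (S : Shape Φ m x z f ext) {a b : ι → Bool} (ha : Follows R z a)
    (hb : Follows R z b) {i : Fin m} (h : ∀ j ≤ i, a (x j) = b (x j)) :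
    (∀ v, v < z i → a v = b v) ∧ a (z i) = b (z i) := by
  have key : ∀ l (hl : l < m), l ≤ i.val → (∀ v, v < z ⟨l, hl⟩ → a v = b v) ∧
      a (z ⟨l, hl⟩) = b (z ⟨l, hl⟩) := by
    intro l
    induction l using Nat.strong_induction_on with
    | _ l ih =>
      intro hl hli
      have h1 : ∀ v, v < z ⟨l, hl⟩ → a v = b v := by
        intro v hv
        cases hex : Φ.ex v with
        | false =>
          obtain ⟨j, rfl⟩ := S.univ v hex
          have hj : j.val < l := S.z_lt_iff.1 hv
          exact (ih j.val hj j.isLt (by omega)).2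
        | true =>
          rcases S.exis v hex with ⟨j, rfl⟩ | hc
          · have hj : j.val ≤ l := S.x_lt_iff.1 hv
            exact h j (Fin.le_def.2 (by omega))
          · exact absurd hv (hc ⟨l, hl⟩).not_gt
      refine ⟨h1, ?_⟩
      rw [ha ⟨l, hl⟩, hb ⟨l, hl⟩, mv_congr S h1]
  exact key i.val i.isLt le_rfl

/-- The candidate stays a candidate. -/
theorem cand_persist (S : Shape Φ m x z f ext) {a : ι → Bool} (ha : Follows R z a) {i l : Fin m}
    (hil : i ≤ l) : rank (cur R z l a) ≤ rank (cur R z i a) := by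
  have key : ∀ n (hn : n < m), i.val ≤ n → rank (cur R z ⟨n, hn⟩ a) ≤ rank (cur R z i a) := by
    intro n hn hin
    induction n, hin using Nat.le_induction with
    | base => exact le_rfl
    | succ n hin ih =>
      refine le_trans ?_ (ih (by omega))
      apply cur_le
      have hn' : n < m := by omega
      obtain ⟨h1, ⟨e, he, he'⟩, h3⟩ := cur_mem R z ⟨n, hn'⟩ a
      refine ⟨h1, ⟨e, le_trans he (Fin.le_def.2 (Nat.le_succ n)), he'⟩, ?_⟩
      intro v hv hlt
      cases hex : Φ.ex v with
      | true => exact h3 v hv (early_ex S ⟨e, he, he'⟩ hv hex)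
      | false =>
        obtain ⟨j, rfl⟩ := S.univ v hex
        have hj : j.val < n + 1 := S.z_lt_iff.1 hlt
        by_cases hjn : j.val < n
        · exact h3 _ hv (S.z_lt_z (Fin.lt_def.2 hjn))
        · have hj' : j = ⟨n, hn'⟩ := Fin.ext (by simpa using (by omega : j.val = n))
          rw [ha j]
          subst hj'
          unfold mv
          rw [if_pos hv]
  exact key l.val l.isLt hil

/-- the pairs which are falsified at the end -/
def FinalSet (R : Refutation Φ k s) (a : ι → Bool) : Set (Fin s × (ι → Bool)) :=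
  {p | (R.line p.1).val p.2 = false ∧ ∀ v ∈ (R.line p.1).ctx, p.2 v = a v}

theorem cur_final (S : Shape Φ m x z f ext) {a : ι → Bool} (ha : Follows R z a) (i : Fin m) :
    ∃ p ∈ FinalSet R a, rank p ≤ rank (cur R z i a) := by
  have hm : 0 < m := i.pos
  let l : Fin m := ⟨m - 1, by omega⟩
  have hil : i ≤ l := Fin.le_def.2 (by show i.val ≤ m - 1; omega)
  refine ⟨cur R z l a, ?_, cand_persist S ha hil⟩
  obtain ⟨h1, h2, h3⟩ := cur_mem R z l a
  refine ⟨h1, fun v hv => ?_⟩
  cases hex : Φ.ex v with
  | true => exact h3 v hv (early_ex S h2 hv hex)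
  | false =>
    obtain ⟨j, rfl⟩ := S.univ v hex
    by_cases hjl : j < l
    · exact h3 _ hv (S.z_lt_z hjl)
    · have hjl' : j = l := by
        apply Fin.ext
        have h4 : ¬ j.val < m - 1 := hjl
        have h5 := j.isLt
        show j.val = m - 1
        omega
      rw [ha j, hjl']
      rw [hjl'] at hv
      unfold mv
      rw [if_pos hv]

/-- The strategy wins. -/
theorem follows_false (S : Shape Φ m x z f ext) {a : ι → Bool} (ha : Follows R z a) :
    ¬ Φ.Holds a := by
  intro hh
  obtain ⟨p0, h01, h02⟩ := exists_last R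
  have hne : (FinalSet R a).Nonempty := ⟨(p0.1, a), h02 a, fun v _ => rfl⟩
  set p := pick p0 (FinalSet R a) with hp
  have hmem : p ∈ FinalSet R a := pick_mem hne
  have hmin : ∀ q ∈ FinalSet R a, rank p ≤ rank q := fun q hq => pick_le hq
  have hcur : ∀ i, z i ∉ (R.line p.1).ctx → cur R z i a = p := by
    intro i hi
    apply rank_inj
    apply le_antisymm
    · apply cur_le
      exact ⟨hmem.1, ⟨i, le_rfl, hi⟩, fun v hv _ => hmem.2 v hv⟩
    · obtain ⟨q, hq, hqr⟩ := cur_final S ha i
      exact (hmin q hq).trans hqr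
  have hplay : Φ.play (R.line p.1).ctx p.2 a (st R p.1 p.2 a) = a := by
    funext v
    unfold QCNF.play
    split_ifs with h1 h2
    · exact hmem.2 v h1
    · rfl
    · obtain ⟨i, rfl⟩ := S.univ v (by simpa using h2)
      rw [ha i]
      unfold mv
      rw [hcur i h1, if_neg h1]
  have hs := (st_spec R hmem.1).2.2.2 a
  rw [hplay] at hs
  apply hs
  refine ⟨hh, fun i hi => ?_⟩
  by_contra hc
  have h1 : (i, a) ∈ FinalSet R a := ⟨by simpa using hc, fun _ _ => rfl⟩
  have h2 := hmin _ h1
  have h3 : rank (i, a) < rank p := rank_lt hi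
  omega

/-- The strategy gives the right answers. -/
theorem follows_right (S : Shape Φ m x z f ext) {a : ι → Bool} (ha : Follows R z a) (i : Fin m) :
    a (z i) = f i (fun j => a (x j)) := by
  by_contra hc
  have h1 := S.ext_holds i a hc
  refine follows_false (R := R) S ?_ h1
  intro l
  rw [S.ext_eq i a _ (Or.inl (S.ex_z l)), ha l]
  refine mv_congr S fun v hv => ?_
  symm
  apply S.ext_eq
  cases hex : Φ.ex v with
  | false => exact Or.inl rfl
  | true =>
    rcases S.exis v hex with ⟨j, rfl⟩ | hc
    · exact Or.inr ⟨j, rfl⟩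
    · exact absurd hv (hc l).not_gt

/-- Within `k` rounds the candidate must be improved. -/
theorem drop (S : Shape Φ m x z f ext) {a : ι → Bool} (ha : Follows R z a) (q : Fin m)
    (hq : q.val + k < m) : ∃ (b : ι → Bool) (j : Fin s), (∀ v, v ≤ z q → b v = a v) ∧
      j < (cur R z q a).1 ∧ Early R z j ⟨q.val + k, hq⟩ ∧ (R.line j).val b = false := by
  obtain ⟨c1, c2, c3⟩ := cur_mem R z q a
  set p := cur R z q a with hp
  obtain ⟨r1, r2, r3, r4⟩ := st_spec R c1
  -- the pigeonhole principle
  have hpig : ∃ i : Fin m, q < i ∧ i.val ≤ q.val + k ∧ (z i ∈ (R.line p.1).ctx ∨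
      rn R p.1 p.2 (z i) ≤ rn R p.1 p.2 (x i)) := by
    by_contra hcon
    push Not at hcon
    have hx : ∀ i : Fin m, q < i → x i ∉ (R.line p.1).ctx := by
      intro i hi hxi
      have := early_ex S c2 hxi (S.ex_x i)
      exact absurd (S.x_lt_iff.1 this) (not_le.2 hi)
    have key : ∀ l, 1 ≤ l → (hl : l ≤ k) → l ≤ rn R p.1 p.2 (z ⟨q.val + l, by omega⟩) := by
      intro l hl
      induction l, hl using Nat.le_induction with
      | base =>
        intro hl
        have := (hcon ⟨q.val + 1, by omega⟩ (Fin.lt_def.2 (by simp)) (by simpa using hl)).2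
        omega
      | succ l hl ih =>
        intro hlk
        have h1 := ih (by omega)
        have h2 := hcon ⟨q.val + (l + 1), by omega⟩ (Fin.lt_def.2 (by simp)) (by simpa using hlk)
        have h3 := (hcon ⟨q.val + l, by omega⟩ (Fin.lt_def.2 (by show q.val < q.val + l; omega))
          (by show q.val + l ≤ q.val + k; omega)).1
        have h4 := r2 (z ⟨q.val + l, by omega⟩) (x ⟨q.val + (l + 1), by omega⟩) h3
          (hx _ (Fin.lt_def.2 (by simp))) (S.ex_z _) (S.ex_x _)
          (S.z_lt_x _ _ (Fin.lt_def.2 (by show q.val + l < q.val + (l + 1); omega)))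
        have h5 := h2.2
        omega
    rcases Nat.eq_zero_or_pos k with hk | hk
    · have := r1 (z q)
      omega
    · have h1 := key k hk le_rfl
      have h2 := r1 (z ⟨q.val + k, by omega⟩)
      omega
  obtain ⟨i, hqi, hik, hor⟩ := hpig
  -- flip the variable `x i`
  obtain ⟨a', ha', hex'⟩ := exists_follows (R := R) S (Function.update a (x i) (!a (x i)))
  have hx_ne : ∀ j, j ≠ i → a' (x j) = a (x j) := by
    intro j hj
    rw [hex' _ (S.ex_x j), Function.update_of_ne]
    intro he
    rcases lt_trichotomy j i with h | h | h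
    · exact absurd he ((S.x_lt_z j).trans (S.z_lt_x _ _ h)).ne
    · exact hj h
    · exact absurd he ((S.x_lt_z i).trans (S.z_lt_x _ _ h)).ne'
  have hx_i : a' (x i) = !a (x i) := by
    rw [hex' _ (S.ex_x i), Function.update_self]
  have hagree : (∀ v, v < z q → a' v = a v) ∧ a' (z q) = a (z q) :=
    follows_agree S ha' ha fun j hj => hx_ne j (lt_of_le_of_lt hj hqi).ne
  have hagree' : ∀ v, v ≤ z q → a' v = a v := by
    intro v hv
    rcases hv.lt_or_eq with h | h
    · exact hagree.1 v h
    · rw [h]; exact hagree.2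
  have hcurq : cur R z q a' = p := cur_congr hagree.1
  -- one of the two plays has a new candidate at time `i`
  have hnew : cur R z i a ≠ p ∨ cur R z i a' ≠ p := by
    by_contra hcon
    push Not at hcon
    have h1 : a (z i) = a' (z i) := by
      rw [ha i, ha' i]
      unfold mv
      rw [hcon.1, hcon.2]
      split_ifs with hz
      · rfl
      · have hle := hor.resolve_left hz
        refine st_congr S c1 hz fun v hv hvc hlt => ?_
        have hpos : 0 < i.val := by have : q.val < i.val := hqi; omega
        let i' : Fin m := ⟨i.val - 1, by omega⟩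
        have hi' : i' < i := Fin.lt_def.2 (by show i.val - 1 < i.val; omega)
        have hag := follows_agree S ha ha' (i := i') fun j hj =>
          (hx_ne j (lt_of_le_of_lt hj hi').ne).symm
        cases hex : Φ.ex v with
        | false =>
          obtain ⟨j, rfl⟩ := S.univ v hex
          have hj : j.val < i.val := S.z_lt_iff.1 hv
          rcases lt_or_eq_of_le (show j.val ≤ i.val - 1 by omega) with h | h
          · exact hag.1 _ (S.z_lt_z (Fin.lt_def.2 h))
          · have : j = i' := Fin.ext h
            rw [this]; exact hag.2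
        | true =>
          rcases S.exis v hex with ⟨j, rfl⟩ | hc
          · refine (hx_ne j ?_).symm
            intro hji
            rw [hji] at hlt
            omega
          · exact absurd hv (hc i).not_gt
    rw [follows_right S ha i, follows_right S ha' i] at h1
    refine S.f_flip i _ _ (fun j hj => (hx_ne j hj.ne).symm) ?_ h1
    rw [hx_i]
    cases a (x i) <;> decide
  have key : ∀ b, Follows R z b → (∀ v, v ≤ z q → b v = a v) → cur R z q b = p →
      cur R z i b ≠ p → ∃ (b' : ι → Bool) (j : Fin s), (∀ v, v ≤ z q → b' v = a v) ∧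
      j < p.1 ∧ Early R z j ⟨q.val + k, hq⟩ ∧ (R.line j).val b' = false := by
    intro b hb hba hbq hbi
    obtain ⟨d1, d2, d3⟩ := cur_mem R z i b
    have hrank : rank (cur R z i b) < rank p := by
      refine lt_of_le_of_ne ?_ fun h => hbi (rank_inj h)
      rw [← hbq]
      exact cand_persist S hb hqi.le
    have hlt : (cur R z i b).1 < p.1 := by
      rcases lt_trichotomy (cur R z i b).1 p.1 with h | h | h
      · exact h
      · exfalso
        have hmem : cur R z i b ∈ CandSet R z q b := by
          refine ⟨d1, ?_, fun v hv hlt => d3 v hv (hlt.trans (S.z_lt_z hqi))⟩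
          rw [h]
          exact c2
        have := cur_le R z hmem
        rw [hbq] at this
        omega
      · exact absurd (rank_lt h) (by omega)
    refine ⟨fun v => if v < z i then b v else (cur R z i b).2 v, (cur R z i b).1, ?_, hlt, ?_, ?_⟩
    · intro v hv
      have : v < z i := lt_of_le_of_lt hv (S.z_lt_z hqi)
      simp only [this, if_true]
      exact hba v hv
    · obtain ⟨l, hl, hl'⟩ := d2
      exact ⟨l, le_trans hl (Fin.le_def.2 hik), hl'⟩
    · rw [← d1]
      refine (R.ok _).1 _ _ fun v hv => ?_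
      split_ifs with hlt
      · exact (d3 v hv hlt).symm
      · rfl
  rcases hnew with h | h
  · exact key a ha (fun _ _ => rfl) hp.symm h
  · exact key a' ha' hagree' hcurq h

/-- A wrong answer does not improve the candidate. -/
theorem wrong (S : Shape Φ m x z f ext) (q : Fin m) (a : ι → Bool)
    (ha : a (z q) ≠ f q (fun j => a (x j))) (b : ι → Bool) (hb : ∀ v, v ≤ z q → b v = a v)
    (j : Fin s) (hE : ∃ i : Fin m, Early R z j i) (hj : (R.line j).val b = false) :
    ∃ j' ≤ j, Early R z j' q ∧ ∃ b' : ι → Bool, (∀ v, v ≤ z q → b' v = a v) ∧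
      (R.line j').val b' = false := by
  -- the plays after the wrong answer
  set P : Set (ι → Bool) := {c | (∀ v, v ≤ z q → c v = a v) ∧ ext q c = c} with hP
  have hfq : ∀ c : ι → Bool, (∀ v, v ≤ z q → c v = a v) → c (z q) ≠ f q (fun j => c (x j)) := by
    intro c hc
    rw [hc _ le_rfl, S.f_dep q (fun j => c (x j)) (fun j => a (x j)) fun i hi =>
      hc _ (S.x_lt_iff.2 hi).le]
    exact ha
  have hholds : ∀ c ∈ P, Φ.Holds c := by
    intro c hc
    rw [← hc.2]
    exact S.ext_holds q c (hfq c hc.1)
  have hPmem : ∀ c : ι → Bool, (∀ v, v ≤ z q → c v = a v) → ext q c ∈ P := by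
    intro c hc
    have h1 : ∀ v, v ≤ z q → ext q c v = a v := by
      intro v hv
      rw [S.ext_eq q c v ?_, hc v hv]
      cases hex : Φ.ex v with
      | false => exact Or.inl rfl
      | true =>
        rcases S.exis v hex with ⟨j, rfl⟩ | hcc
        · exact Or.inr ⟨j, rfl⟩
        · exact absurd hv (not_le.2 (hcc q))
    refine ⟨h1, ?_⟩
    funext v
    cases hex : Φ.ex v with
    | false => exact S.ext_eq q _ v (Or.inl hex)
    | true =>
      exact S.ext_dep q _ _ (fun j => S.ext_eq q c _ (Or.inr ⟨j, rfl⟩)) v hex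
  -- the smallest line falsified on `P`
  have hex : ∃ n : ℕ, ∃ (i : Fin s) (c : ι → Bool), i.val = n ∧ c ∈ P ∧ (R.line i).val c = false := by
    obtain ⟨i, hi⟩ := hE
    refine ⟨j.val, j, ext q b, rfl, hPmem b hb, ?_⟩
    rw [← hj]
    refine (R.ok j).1 _ _ fun v hv => ?_
    refine S.ext_eq q b v ?_
    cases hex : Φ.ex v with
    | false => exact Or.inl rfl
    | true =>
      rcases S.exis v hex with ⟨l, rfl⟩ | hcc
      · exact Or.inr ⟨l, rfl⟩
      · exact absurd (early_ex S hi hv hex) (hcc i).not_gt
  have hjle : Nat.find hex ≤ j.val := by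
    obtain ⟨i, hi⟩ := hE
    apply Nat.find_min'
    refine ⟨j, ext q b, rfl, hPmem b hb, ?_⟩
    rw [← hj]
    refine (R.ok j).1 _ _ fun v hv => ?_
    refine S.ext_eq q b v ?_
    cases hex : Φ.ex v with
    | false => exact Or.inl rfl
    | true =>
      rcases S.exis v hex with ⟨l, rfl⟩ | hcc
      · exact Or.inr ⟨l, rfl⟩
      · exact absurd (early_ex S hi hv hex) (hcc i).not_gt
  obtain ⟨j', c, hj'n, hcP, hj'⟩ := Nat.find_spec hex
  refine ⟨j', by rw [Fin.le_def, hj'n]; exact hjle, ?_, c, hcP.1, hj'⟩
  by_contra hnE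
  have hctx : ∀ l ≤ q, z l ∈ (R.line j').ctx := by
    intro l hl
    by_contra hc
    exact hnE ⟨l, hl, hc⟩
  set c' := Φ.play (R.line j').ctx c c (st R j' c c) with hc'
  have hc'ex : ∀ v, Φ.ex v = true → c' v = c v := by
    intro v hv
    rw [hc']
    unfold QCNF.play
    simp [hv]
  have hc'P : c' ∈ P := by
    refine ⟨fun v hv => ?_, ?_⟩
    · cases hex : Φ.ex v with
      | true => rw [hc'ex v hex]; exact hcP.1 v hv
      | false =>
        obtain ⟨l, rfl⟩ := S.univ v hex
        have hl : l ≤ q := by
          by_contra hc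
          exact absurd hv (not_le.2 (S.z_lt_z (not_le.1 hc)))
        rw [hc']
        unfold QCNF.play
        rw [if_pos (hctx l hl)]
        exact hcP.1 _ hv
    · funext v
      cases hex : Φ.ex v with
      | false => exact S.ext_eq q _ v (Or.inl hex)
      | true =>
        rw [S.ext_dep q c' c (fun l => hc'ex _ (S.ex_x l)) v hex, hcP.2, hc'ex v hex]
  have hs := (st_spec R hj').2.2.2 c
  rw [← hc'] at hs
  apply hs
  refine ⟨hholds _ hc'P, fun i hi => ?_⟩
  by_contra hc
  have h1 : Nat.find hex ≤ i.val := Nat.find_min' hex ⟨i, c', rfl, hc'P, by simpa using hc⟩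
  have h2 : i.val < j'.val := hi
  omega

/-- The right answer at `z q`, in terms of the values of the lines. -/
theorem answer (S : Shape Φ m x z f ext) (q : Fin m) (hq : q.val + k < m) (a : ι → Bool)
    (ha : ∀ i < q, a (z i) = f i (fun j => a (x j))) :
    a (z q) = f q (fun j => a (x j)) ↔
      ∃ j, Early R z j ⟨q.val + k, hq⟩ ∧
        (∃ b : ι → Bool, (∀ v, v ≤ z q → b v = a v) ∧ (R.line j).val b = false) ∧
        ∀ j' ≤ j, Early R z j' q → ∀ b : ι → Bool, (∀ v, v ≤ z q → b v = a v) →
          (R.line j').val b = true := by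
  constructor
  · intro hr
    obtain ⟨c, hc, hcex⟩ := exists_follows (R := R) (z := z) S a
    have hca : ∀ v, v ≤ z q → c v = a v := by
      intro v hv
      cases hex : Φ.ex v with
      | true => exact hcex v hex
      | false =>
        obtain ⟨i, rfl⟩ := S.univ v hex
        have hi : i ≤ q := by
          by_contra hcc
          exact absurd hv (not_le.2 (S.z_lt_z (not_le.1 hcc)))
        rw [follows_right S hc i]
        have h1 : (fun j => c (x j)) = fun j => a (x j) := by
          funext j
          exact hcex _ (S.ex_x j)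
        rw [h1]
        rcases hi.lt_or_eq with h | h
        · exact (ha i h).symm
        · rw [h]; exact hr.symm
    obtain ⟨b, j, hb, hj, hE, hv⟩ := drop S hc q hq
    refine ⟨j, hE, ⟨b, fun v hv => (hb v hv).trans (hca v hv), hv⟩, ?_⟩
    intro j' hj' hE' b' hb'
    by_contra hcon
    have h1 : (j', b') ∈ CandSet R z q c := by
      refine ⟨by simpa using hcon, hE', fun v _ hlt => ?_⟩
      show b' v = c v
      rw [hb' v hlt.le, hca v hlt.le]
    have h2 := cur_le R z h1
    have h3 : rank (j', b') < rank (cur R z q c) := rank_lt (lt_of_le_of_lt hj' hj)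
    omega
  · rintro ⟨j, hE, ⟨b, hb, hv⟩, hall⟩
    by_contra hw
    obtain ⟨j', hj', hE', b', hb', hv'⟩ := wrong (R := R) S q a hw b hb j ⟨_, hE⟩ hv
    rw [hall j' hj' hE' b' hb'] at hv'
    exact Bool.false_ne_true hv'.symm

end Main

end Pool.Agent.Helper67.QP
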