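import Mathlib
import Pool.Agent.Helper67.QP.Extract

/-!
# The hard formulas
-/

set_option autoImplicit false

namespace Pool.Agent.Helper67.QP

variable {n r : ℕ}

theorem holds_iff (a : Var n r → Bool) : (hard n r).Holds a ↔
    (∀ i, a (.c i 0) = true) ∧ (∀ j : Fin (n + 1), a (.c 0 j.succ) = false) ∧
    (∀ (i : Fin n) (j : Fin (n + 1)), a (.c i.succ j.succ) =
      (a (.c i.castSucc j.succ) || (a (.x (Fin.castAdd r i)) && a (.c i.castSucc j.castSucc)))) ∧
    (∀ i : Fin n, a (.y (Fin.castAdd r i)) = true →
      a (.z (Fin.castAdd r i)) ≠ a (.x (Fin.castAdd r i))) ∧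
    (∀ i : Fin r, a (.y (Fin.natAdd n i)) = true → a (.z (Fin.natAdd n i)) ≠
      (a (.x (Fin.natAdd n i)) ^^ a (.c (Fin.last n) ⟨n / 2 + 1, by omega⟩))) ∧
    ∃ i, a (.y i) = true := by
  have e1 : (∀ C ∈ (List.finRange (n + 1)).map (fun i => [((.c i 0 : Var n r), true)]),
      ∃ l ∈ C, a l.1 = l.2) ↔ ∀ i, a (.c i 0) = true := by
    simp
  have e2 : (∀ C ∈ (List.finRange (n + 1)).map (fun j => [((.c 0 j.succ : Var n r), false)]),
      ∃ l ∈ C, a l.1 = l.2) ↔ ∀ j : Fin (n + 1), a (.c 0 j.succ) = false := by
    simp
  have e3 : (∀ C ∈ (List.finRange n).flatMap (fun i => (List.finRange (n + 1)).flatMap fun j =>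
      [[((.c i.succ j.succ : Var n r), true), (.c i.castSucc j.succ, false)],
       [(.c i.succ j.succ, true), (.x (Fin.castAdd r i), false), (.c i.castSucc j.castSucc, false)],
       [(.c i.succ j.succ, false), (.c i.castSucc j.succ, true), (.x (Fin.castAdd r i), true)],
       [(.c i.succ j.succ, false), (.c i.castSucc j.succ, true),
        (.c i.castSucc j.castSucc, true)]]), ∃ l ∈ C, a l.1 = l.2) ↔
      ∀ (i : Fin n) (j : Fin (n + 1)), a (.c i.succ j.succ) =
      (a (.c i.castSucc j.succ) || (a (.x (Fin.castAdd r i)) && a (.c i.castSucc j.castSucc))) := by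
    simp only [List.mem_flatMap, List.mem_finRange, true_and, List.mem_cons, List.not_mem_nil,
      or_false]
    constructor
    · intro h i j
      have h1 := h _ ⟨i, j, Or.inl rfl⟩
      have h2 := h _ ⟨i, j, Or.inr (Or.inl rfl)⟩
      have h3 := h _ ⟨i, j, Or.inr (Or.inr (Or.inl rfl))⟩
      have h4 := h _ ⟨i, j, Or.inr (Or.inr (Or.inr rfl))⟩
      simp only [List.mem_cons, List.not_mem_nil, or_false, exists_eq_or_imp, exists_eq_left] at h1 h2 h3 h4
      revert h1 h2 h3 h4
      cases a (.c i.succ j.succ) <;> cases a (.c i.castSucc j.succ) <;>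
        cases a (.x (Fin.castAdd r i)) <;> cases a (.c i.castSucc j.castSucc) <;> simp
    · rintro h C ⟨i, j, hC⟩
      have h0 := h i j
      revert h0
      rcases hC with rfl | rfl | rfl | rfl <;>
        simp only [List.mem_cons, List.not_mem_nil, or_false, exists_eq_or_imp, exists_eq_left] <;>
        cases a (.c i.succ j.succ) <;> cases a (.c i.castSucc j.succ) <;>
        cases a (.x (Fin.castAdd r i)) <;> cases a (.c i.castSucc j.castSucc) <;> simp
  have e4 : (∀ C ∈ (List.finRange n).flatMap (fun i =>
      [[((.y (Fin.castAdd r i) : Var n r), false), (.z (Fin.castAdd r i), true),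
        (.x (Fin.castAdd r i), true)],
       [(.y (Fin.castAdd r i), false), (.z (Fin.castAdd r i), false),
        (.x (Fin.castAdd r i), false)]]), ∃ l ∈ C, a l.1 = l.2) ↔
      ∀ i : Fin n, a (.y (Fin.castAdd r i)) = true →
        a (.z (Fin.castAdd r i)) ≠ a (.x (Fin.castAdd r i)) := by
    simp only [List.mem_flatMap, List.mem_finRange, true_and, List.mem_cons, List.not_mem_nil,
      or_false]
    constructor
    · intro h i
      have h1 := h _ ⟨i, Or.inl rfl⟩
      have h2 := h _ ⟨i, Or.inr rfl⟩
      simp only [List.mem_cons, List.not_mem_nil, or_false, exists_eq_or_imp, exists_eq_left] at h1 h2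
      revert h1 h2
      cases a (.y (Fin.castAdd r i)) <;> cases a (.z (Fin.castAdd r i)) <;>
        cases a (.x (Fin.castAdd r i)) <;> simp
    · rintro h C ⟨i, hC⟩
      have h0 := h i
      revert h0
      rcases hC with rfl | rfl <;>
        simp only [List.mem_cons, List.not_mem_nil, or_false, exists_eq_or_imp, exists_eq_left] <;>
        cases a (.y (Fin.castAdd r i)) <;> cases a (.z (Fin.castAdd r i)) <;>
        cases a (.x (Fin.castAdd r i)) <;> simp
  have e5 : (∀ C ∈ (List.finRange r).flatMap (fun i => [true, false].flatMap fun b =>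
      [true, false].map fun b' =>
      [((.y (Fin.natAdd n i) : Var n r), false), (.z (Fin.natAdd n i), b),
        (.x (Fin.natAdd n i), b'), (.c (Fin.last n) ⟨n / 2 + 1, by omega⟩, !(b ^^ b'))]),
        ∃ l ∈ C, a l.1 = l.2) ↔
      ∀ i : Fin r, a (.y (Fin.natAdd n i)) = true → a (.z (Fin.natAdd n i)) ≠
        (a (.x (Fin.natAdd n i)) ^^ a (.c (Fin.last n) ⟨n / 2 + 1, by omega⟩)) := by
    simp only [List.mem_flatMap, List.mem_finRange, true_and, List.mem_cons, List.not_mem_nil,
      or_false, List.mem_map]
    constructor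
    · intro h i
      have h1 := h _ ⟨i, true, Or.inl rfl, true, Or.inl rfl, rfl⟩
      have h2 := h _ ⟨i, true, Or.inl rfl, false, Or.inr rfl, rfl⟩
      have h3 := h _ ⟨i, false, Or.inr rfl, true, Or.inl rfl, rfl⟩
      have h4 := h _ ⟨i, false, Or.inr rfl, false, Or.inr rfl, rfl⟩
      simp only [List.mem_cons, List.not_mem_nil, or_false, exists_eq_or_imp, exists_eq_left] at h1 h2 h3 h4
      revert h1 h2 h3 h4
      cases a (.y (Fin.natAdd n i)) <;> cases a (.z (Fin.natAdd n i)) <;>
        cases a (.x (Fin.natAdd n i)) <;> cases a (.c (Fin.last n) ⟨n / 2 + 1, by omega⟩) <;> simp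
    · rintro h C ⟨i, b, -, b', -, rfl⟩
      have h0 := h i
      revert h0
      simp only [List.mem_cons, List.not_mem_nil, or_false, exists_eq_or_imp, exists_eq_left]
      cases b <;> cases b' <;> cases a (.y (Fin.natAdd n i)) <;> cases a (.z (Fin.natAdd n i)) <;>
        cases a (.x (Fin.natAdd n i)) <;> cases a (.c (Fin.last n) ⟨n / 2 + 1, by omega⟩) <;> simp
  have e6 : (∀ C ∈ [(List.finRange (n + r)).map fun i => ((.y i : Var n r), true)],
      ∃ l ∈ C, a l.1 = l.2) ↔ ∃ i, a (.y i) = true := by
    simp
  unfold QCNF.Holds hard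
  simp only [List.forall_mem_append]
  rw [e1, e2, e3, e4, e5, e6]
  tauto

/-- the number of true inputs among the first `i` ones -/
def cnt (X : Fin (n + r) → Bool) (i : ℕ) : ℕ :=
  (Finset.univ.filter fun l : Fin n => l.val < i ∧ X (Fin.castAdd r l) = true).card

theorem cnt_zero (X : Fin (n + r) → Bool) : cnt X 0 = 0 := by
  unfold cnt
  simp

theorem cnt_succ (X : Fin (n + r) → Bool) (i : Fin n) :
    cnt X (i.val + 1) = cnt X i.val + if X (Fin.castAdd r i) = true then 1 else 0 := by
  unfold cnt
  by_cases h : X (Fin.castAdd r i) = true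
  · have e : (Finset.univ.filter fun l : Fin n => l.val < i.val + 1 ∧
        X (Fin.castAdd r l) = true) = insert i (Finset.univ.filter fun l : Fin n =>
        l.val < i.val ∧ X (Fin.castAdd r l) = true) := by
      ext l
      simp only [Finset.mem_filter, Finset.mem_univ, true_and, Finset.mem_insert]
      constructor
      · rintro ⟨h1, h2⟩
        by_cases hl : l = i
        · exact Or.inl hl
        · have : l.val ≠ i.val := fun h => hl (Fin.ext h)
          exact Or.inr ⟨by omega, h2⟩
      · rintro (rfl | ⟨h1, h2⟩)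
        · exact ⟨by omega, h⟩
        · exact ⟨by omega, h2⟩
    rw [e, Finset.card_insert_of_notMem (by simp), if_pos h]
  · have e : (Finset.univ.filter fun l : Fin n => l.val < i.val + 1 ∧
        X (Fin.castAdd r l) = true) = Finset.univ.filter fun l : Fin n =>
        l.val < i.val ∧ X (Fin.castAdd r l) = true := by
      ext l
      simp only [Finset.mem_filter, Finset.mem_univ, true_and]
      constructor
      · rintro ⟨h1, h2⟩
        have : l.val ≠ i.val := fun h' => h (by rw [← Fin.ext h']; exact h2)
        exact ⟨by omega, h2⟩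
      · rintro ⟨h1, h2⟩
        exact ⟨by omega, h2⟩
    rw [e, if_neg h, Nat.add_zero]

theorem cnt_congr {X Y : Fin (n + r) → Bool} (i : ℕ)
    (h : ∀ l : Fin n, X (Fin.castAdd r l) = Y (Fin.castAdd r l)) : cnt X i = cnt Y i := by
  unfold cnt
  simp only [h]

/-- the right answers -/
def ans (i : Fin (n + r)) (X : Fin (n + r) → Bool) : Bool :=
  if i.val < n then X i else X i ^^ decide (n / 2 + 1 ≤ cnt X n)

/-- the existential player wins once `z i` is wrong -/
def ext (i : Fin (n + r)) (a : Var n r → Bool) : Var n r → Bool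
  | .x j => a (.x j)
  | .z j => a (.z j)
  | .c i' j' => decide (j'.val ≤ cnt (fun l => a (.x l)) i'.val)
  | .y j => decide (j = i)

theorem lt_def' {u v : Var n r} : u < v ↔ u.place < v.place := Iff.rfl

theorem ans_congr {X Y : Fin (n + r) → Bool} {i : Fin (n + r)} (hi : n ≤ i.val)
    (h : ∀ j < i, X j = Y j) : decide (n / 2 + 1 ≤ cnt X n) = decide (n / 2 + 1 ≤ cnt Y n) := by
  rw [cnt_congr n fun l => h (Fin.castAdd r l) ?_]
  rw [Fin.lt_def, Fin.val_castAdd]
  have := l.isLt
  omega

theorem shape : Shape (hard n r) (n + r) Var.x Var.z ans ext where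
  ex_x := fun _ => rfl
  ex_z := fun _ => rfl
  univ := by
    intro v hv
    cases v with
    | z i => exact ⟨i, rfl⟩
    | x i => exact absurd hv (by simp [hard])
    | c i j => exact absurd hv (by simp [hard])
    | y i => exact absurd hv (by simp [hard])
  exis := by
    intro v hv
    cases v with
    | z i => exact absurd hv (by simp [hard])
    | x i => exact Or.inl ⟨i, rfl⟩
    | c i j =>
      refine Or.inr fun l => lt_def'.2 ?_
      simp only [Var.place]
      have := l.isLt
      omega
    | y i =>
      refine Or.inr fun l => lt_def'.2 ?_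
      simp only [Var.place]
      have := l.isLt
      omega
  x_lt_z := fun i => lt_def'.2 (by simp only [Var.place]; omega)
  z_lt_x := fun i j h => lt_def'.2 (by
    have : i.val < j.val := h
    simp only [Var.place]
    omega)
  f_dep := by
    intro i a b h
    unfold ans
    split_ifs with hi
    · exact h i le_rfl
    · rw [h i le_rfl, ans_congr (not_lt.1 hi) fun j hj => h j hj.le]
  f_flip := by
    intro i a b h hne
    unfold ans
    split_ifs with hi
    · exact hne
    · rw [ans_congr (not_lt.1 hi) h]
      revert hne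
      cases a i <;> cases b i <;> cases decide (n / 2 + 1 ≤ cnt b n) <;> simp
  ext_eq := by
    intro i a v hv
    cases v with
    | z j => rfl
    | x j => rfl
    | c j l =>
      rcases hv with hv | ⟨j, hv⟩
      · exact absurd hv (by simp [hard])
      · exact absurd hv (by simp)
    | y j =>
      rcases hv with hv | ⟨j, hv⟩
      · exact absurd hv (by simp [hard])
      · exact absurd hv (by simp)
  ext_dep := by
    intro i a b h v hv
    cases v with
    | z j => exact absurd hv (by simp [hard])
    | x j => exact h j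
    | c j l =>
      have e : cnt (fun l => a (.x l)) j.val = cnt (fun l => b (.x l)) j.val :=
        cnt_congr j.val fun l => h _
      simp only [ext, e]
    | y j => rfl
  ext_holds := by
    intro i a ha
    rw [holds_iff]
    refine ⟨fun j => ?_, fun j => ?_, fun l j => ?_, fun l hl => ?_, fun l hl => ?_, i, ?_⟩
    · simp [ext]
    · simp [ext, cnt_zero]
    · have e := cnt_succ (fun l => a (.x l)) l
      simp only [ext, Fin.val_succ, Fin.val_castSucc, e]
      cases a (.x (Fin.castAdd r l)) with
      | false => simp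
      | true =>
        simp only [if_true, Bool.true_and]
        rw [← Bool.decide_or, decide_eq_decide]
        omega
    · simp only [ext, decide_eq_true_eq] at hl
      subst hl
      simpa [ext, ans] using ha
    · simp only [ext, decide_eq_true_eq] at hl
      subst hl
      simpa [ext, ans] using ha
    · simp [ext]

/-- If all answers are right, then the matrix is false. -/
theorem right_false (a : Var n r → Bool) (h : ∀ i, a (.z i) = ans i fun j => a (.x j)) :
    ¬ (hard n r).Holds a := by
  rw [holds_iff]
  rintro ⟨h1, h2, h3, h4, h5, i, hi⟩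
  have key : ∀ (i : ℕ) (hi : i < n + 1) (j : Fin (n + 2)),
      a (.c ⟨i, hi⟩ j) = decide (j.val ≤ cnt (fun l => a (.x l)) i) := by
    intro i
    induction i with
    | zero =>
      intro hi j
      refine Fin.cases ?_ (fun j => ?_) j
      · simpa using h1 _
      · rw [cnt_zero]
        simpa using h2 j
    | succ i ih =>
      intro hi j
      have hi' : i < n := by omega
      refine Fin.cases ?_ (fun j => ?_) j
      · simpa using h1 _
      · have e := h3 ⟨i, hi'⟩ j
        have e1 := ih (by omega) j.succ
        have e2 := ih (by omega) j.castSucc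
        have e3 : cnt (fun l => a (.x l)) (i + 1) = _ := cnt_succ (fun l => a (.x l)) ⟨i, hi'⟩
        have e' : a (.c ⟨i + 1, hi⟩ j.succ) =
          (a (.c ⟨i, by omega⟩ j.succ) || (a (.x (Fin.castAdd r ⟨i, hi'⟩)) &&
            a (.c ⟨i, by omega⟩ j.castSucc))) := e
        rw [e', e1, e2, e3]
        cases a (.x (Fin.castAdd r ⟨i, hi'⟩)) with
        | false => simp
        | true =>
          simp only [if_true, Bool.true_and, Fin.val_succ, Fin.val_castSucc]
          rw [← Bool.decide_or, decide_eq_decide]
          omega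
  have hM : a (.c (Fin.last n) ⟨n / 2 + 1, by omega⟩) =
      decide (n / 2 + 1 ≤ cnt (fun l => a (.x l)) n) := key n (by omega) _
  refine Fin.addCases (motive := fun i => a (.y i) = true → False) (fun l hl => ?_)
    (fun l hl => ?_) i hi
  · refine h4 l hl ?_
    rw [h]
    simp [ans]
  · refine h5 l hl ?_
    rw [h, hM]
    simp [ans]

end Pool.Agent.Helper67.QP
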