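import Mathlib
import Pool.Agent.Helper67.QP.Family

/-!
# Short refutations with arbitrary lines
-/

set_option autoImplicit false

namespace Pool.Agent.Helper67.QP

open Classical

set_option linter.unusedSectionVars false

variable {ι : Type} [LinearOrder ι] [Fintype ι] {Φ : QCNF ι} {m : ℕ} {x z : Fin m → ι}
  {f : Fin m → (Fin m → Bool) → Bool} {ext : Fin m → (ι → Bool) → ι → Bool}

/-- some of the first answers is wrong -/
noncomputable def wl (x z : Fin m → ι) (f : Fin m → (Fin m → Bool) → Bool) (l : ℕ) : Line ι where
  ctx := {v | ∃ i : Fin m, i.val < l ∧ (v = x i ∨ v = z i)}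
  val := fun a => decide (∃ i : Fin m, i.val < l ∧ a (z i) ≠ f i fun j => a (x j))

theorem wl_false {l : ℕ} {a : ι → Bool} : (wl x z f l).val a = false ↔
    ∀ i : Fin m, i.val < l → a (z i) = f i fun j => a (x j) := by
  unfold wl
  simp only [decide_eq_false_iff_not, not_exists, not_and, not_not]

theorem wl_ok (S : Shape Φ m x z f ext) (l : ℕ) : (wl x z f l).Ok Φ := by
  constructor
  · intro a b h
    unfold wl
    simp only [decide_eq_decide]
    refine exists_congr fun i => and_congr_right fun hi => ?_
    rw [h (z i) ⟨i, hi, Or.inr rfl⟩, S.f_dep i (fun j => a (x j)) (fun j => b (x j)) fun j hj =>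
      h (x j) ⟨j, lt_of_le_of_lt (Fin.le_def.1 hj) hi, Or.inl rfl⟩]
  · rintro v ⟨i, hi, hv⟩ hex u hu huex
    obtain ⟨j, rfl⟩ := S.univ u huex
    have hv' : v ≤ z i := by
      rcases hv with rfl | rfl
      · exact (S.x_lt_z i).le
      · exact le_rfl
    have hj : j < i := S.z_lt_iff.1 (hu.trans_le hv')
    exact ⟨j, lt_trans hj hi, Or.inr rfl⟩

/-- The short refutation. -/
theorem short (S : Shape Φ m x z f ext)
    (hM : ∀ a : ι → Bool, (∀ i, a (z i) = f i fun j => a (x j)) → ¬ Φ.Holds a) :
    Nonempty (Refutation Φ 2 (m + 1)) := by
  refine ⟨⟨fun j => wl x z f (m - j.val), fun j => wl_ok S _, ?_, ⟨Fin.last m, ?_, ?_⟩⟩⟩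
  · intro j a ha
    rw [wl_false] at ha
    rcases Nat.eq_zero_or_pos j.val with hj | hj
    · refine ⟨fun _ => 0, fun _ _ => false, fun _ => Nat.zero_lt_two, fun _ _ _ _ _ _ _ => le_rfl,
        fun _ _ _ _ => rfl, ?_⟩
      rintro b ⟨hb, -⟩
      refine hM _ ?_ hb
      intro i
      have hi : i.val < m - j.val := by have := i.isLt; omega
      have h1 : ∀ i' : Fin m, Φ.play (wl x z f (m - j.val)).ctx a b (fun _ => false) (x i') =
          a (x i') := by
        intro i'
        unfold QCNF.play
        rw [if_pos]
        exact ⟨i', by have := i'.isLt; omega, Or.inl rfl⟩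
      simp only [h1]
      unfold QCNF.play
      rw [if_pos ⟨i, hi, Or.inr rfl⟩]
      exact ha i hi
    · have hl0 : m - j.val < m := by
        have := j.isLt
        omega
      set l : Fin m := ⟨m - j.val, hl0⟩ with hl
      set X : Set ι := (wl x z f (m - j.val)).ctx with hX
      have hlX : x l ∉ X := by
        rintro ⟨i, hi, h | h⟩
        · have hne : i < l := Fin.lt_def.2 hi
          exact absurd h ((S.x_lt_z i).trans (S.z_lt_x i l hne)).ne'
        · exact S.x_ne_z l i h
      have hlX' : z l ∉ X := by
        rintro ⟨i, hi, h | h⟩
        · exact S.x_ne_z i l h.symm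
        · have hne : i < l := Fin.lt_def.2 hi
          exact absurd h (S.z_lt_z hne).ne'
      refine ⟨fun v => if v = x l then 0 else 1, fun b v =>
        if v = z l then f l (fun i => if i < l then a (x i) else b (x i)) else false, ?_, ?_, ?_, ?_⟩
      · intro v
        simp only
        split_ifs <;> omega
      · intro u v hu hv hue hve huv
        have hvx : v ≠ x l := by
          rintro rfl
          obtain ⟨i, rfl⟩ := S.univ u hue
          have : i < l := by
            by_contra hc
            exact absurd huv (not_lt.2 ((S.x_lt_z l).le.trans (S.z_le_z (not_lt.1 hc))))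
          exact hu ⟨i, this, Or.inr rfl⟩
        simp only [if_neg hvx]
        split_ifs <;> omega
      · intro b b' u h
        simp only
        split_ifs with hu
        · refine S.f_dep l _ _ fun i hi => ?_
          split_ifs with hil
          · rfl
          · have hil' : i = l := le_antisymm hi (not_lt.1 hil)
            rw [hil']
            refine h (x l) hlX (S.ex_x l) ?_
            show (if x l = x l then 0 else 1) < (if u = x l then 0 else 1)
            rw [hu, if_pos rfl, if_neg (S.x_ne_z l l).symm]
            exact Nat.zero_lt_one
        · rfl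
      · rintro b ⟨-, hb⟩
        have h1 := hb ⟨j.val - 1, by omega⟩ (Fin.lt_def.2 (by show j.val - 1 < j.val; omega))
        rw [← Bool.not_eq_false] at h1
        apply h1
        rw [wl_false]
        intro i hi
        have hi' : i.val ≤ l.val := by
          show i.val ≤ m - j.val
          have hi2 : i.val < m - (j.val - 1) := hi
          omega
        have hx : ∀ i' : Fin m, i' < l → ∀ h : ι → Bool, Φ.play X a b h (x i') = a (x i') := by
          intro i' hi' h
          unfold QCNF.play
          rw [if_pos ⟨i', hi', Or.inl rfl⟩]
        have hx2 : ∀ h : ι → Bool, Φ.play X a b h (x l) = b (x l) := by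
          intro h
          unfold QCNF.play
          rw [if_neg hlX, if_pos (S.ex_x l)]
        rcases hi'.lt_or_eq with h2 | h2
        · have h3 : Φ.play X a b (fun v => if v = z l then f l (fun i => if i < l then a (x i)
              else b (x i)) else false) (z i) = a (z i) := by
            unfold QCNF.play
            rw [if_pos ⟨i, h2, Or.inr rfl⟩]
          rw [h3, ha i h2]
          refine S.f_dep i _ _ fun i' hi' => ?_
          rw [hx i' (lt_of_le_of_lt hi' (Fin.lt_def.2 h2))]
        · have hil : i = l := Fin.ext h2
          rw [hil]
          have h3 : Φ.play X a b (fun v => if v = z l then f l (fun i => if i < l then a (x i)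
              else b (x i)) else false) (z l) = f l (fun i => if i < l then a (x i)
              else b (x i)) := by
            unfold QCNF.play
            rw [if_neg hlX', if_neg (by rw [S.ex_z]; exact Bool.false_ne_true)]
            simp only [if_true]
          rw [h3]
          refine S.f_dep l _ _ fun i' hi' => ?_
          split_ifs with h4
          · rw [hx i' h4]
          · have h5 : i' = l := le_antisymm hi' (not_lt.1 h4)
            rw [h5, hx2]
  · ext v
    simp only [wl, Set.mem_setOf_eq, Set.mem_empty_iff_false, iff_false, not_exists, not_and]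
    intro i hi
    simp at hi
  · intro a
    rw [wl_false]
    intro i hi
    simp at hi

theorem hard_short (n r : ℕ) : Nonempty (Refutation (hard n r) 2 (n + r + 1)) :=
  short shape right_false

end Pool.Agent.Helper67.QP
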