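import Mathlib
import Pool.Agent.Helper67.QP.Approx
import Pool.Agent.Helper67.QP.Upper

/-!
# The lower bound
-/

set_option autoImplicit false

namespace Pool.Agent.Helper67.QP

open Finset Pool.Agent.W856 Classical

variable {n r : ℕ}

/-- the substitutions -/
def gs (ρ : Fin r → Bool × Bool) : Var n r → Fin n ⊕ Bool
  | .x i => if h : i.val < n then .inl ⟨i.val, h⟩ else .inr (ρ ⟨i.val - n, by omega⟩).1
  | .z i => if h : i.val < n then .inl ⟨i.val, h⟩ else .inr (ρ ⟨i.val - n, by omega⟩).2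
  | .c _ _ => .inr false
  | .y _ => .inr false

/-- the value of the first pair -/
def Valid (ρ : Fin r → Bool × Bool) : Prop := ∀ i : Fin r, i.val = 0 → ρ i = (false, true)

theorem sub_x (ρ : Fin r → Bool × Bool) (y : Corner.V n) (i : Fin (n + r)) :
    subst (gs ρ) y (.x i) = if h : i.val < n then decide (y ⟨i.val, h⟩ = 1) else
      (ρ ⟨i.val - n, by omega⟩).1 := by
  unfold subst gs
  by_cases h : i.val < n
  · simp only [h, dif_pos]
  · simp only [h, dif_neg, not_false_eq_true]

theorem sub_z (ρ : Fin r → Bool × Bool) (y : Corner.V n) (i : Fin (n + r)) :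
    subst (gs ρ) y (.z i) = if h : i.val < n then decide (y ⟨i.val, h⟩ = 1) else
      (ρ ⟨i.val - n, by omega⟩).2 := by
  unfold subst gs
  by_cases h : i.val < n
  · simp only [h, dif_pos]
  · simp only [h, dif_neg, not_false_eq_true]

theorem le_z_cases {q : Fin (n + r)} {v : Var n r} (h : v ≤ .z q) :
    (∃ i ≤ q, v = .x i) ∨ ∃ i ≤ q, v = .z i := by
  have S := shape (n := n) (r := r)
  cases v with
  | x i =>
    refine Or.inl ⟨i, ?_, rfl⟩
    rcases h.lt_or_eq with h | h
    · exact S.x_lt_iff.1 h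
    · exact absurd h (by simp)
  | z i =>
    refine Or.inr ⟨i, ?_, rfl⟩
    rcases h.lt_or_eq with h | h
    · exact (S.z_lt_iff.1 h).le
    · have : i = q := by simpa using h
      exact this.le
  | c i j =>
    exfalso
    rcases S.exis (.c i j) rfl with ⟨l, hl⟩ | hl
    · exact absurd hl (by simp)
    · exact absurd (hl q) (not_lt.2 h)
  | y i =>
    exfalso
    rcases S.exis (.y i) rfl with ⟨l, hl⟩ | hl
    · exact absurd hl (by simp)
    · exact absurd (hl q) (not_lt.2 h)

theorem sub_agree {ρ ρ' : Fin r → Bool × Bool} (hρ : Valid ρ) (hρ' : Valid ρ') (y : Corner.V n)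
    (q : Fin (n + r)) (hq : q.val = n) (v : Var n r) (hv : v ≤ .z q) :
    subst (gs ρ) y v = subst (gs ρ') y v := by
  rcases le_z_cases hv with ⟨i, hi, rfl⟩ | ⟨i, hi, rfl⟩
  · rw [sub_x, sub_x]
    by_cases h : i.val < n
    · rw [dif_pos h, dif_pos h]
    · rw [dif_neg h, dif_neg h, hρ _ (by have := Fin.le_def.1 hi; simp only; omega),
        hρ' _ (by have := Fin.le_def.1 hi; simp only; omega)]
  · rw [sub_z, sub_z]
    by_cases h : i.val < n
    · rw [dif_pos h, dif_pos h]
    · rw [dif_neg h, dif_neg h, hρ _ (by have := Fin.le_def.1 hi; simp only; omega),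
        hρ' _ (by have := Fin.le_def.1 hi; simp only; omega)]

theorem sub_surj {k s : ℕ} (R : Refutation (hard n r) k s) {ρ : Fin r → Bool × Bool}
    (hρ : Valid ρ) (y : Corner.V n) (q : Fin (n + r)) (hq : q.val = n) (b : Var n r → Bool)
    (hb : ∀ v, v ≤ .z q → b v = subst (gs ρ) y v) {j : Fin s} {i : Fin (n + r)}
    (hE : Early R Var.z j i) : ∃ ρ', Valid ρ' ∧
      (R.line j).val (subst (gs ρ') y) = (R.line j).val b := by
  have S := shape (n := n) (r := r)
  have hx : ∀ l : Fin (n + r), l ≤ q → (.x l : Var n r) ≤ .z q := fun l hl => (S.x_lt_iff.2 hl).le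
  have hz : ∀ l : Fin (n + r), l ≤ q → (.z l : Var n r) ≤ .z q := fun l hl => S.z_le_z hl
  refine ⟨fun l => (b (.x (Fin.natAdd n l)), b (.z (Fin.natAdd n l))), ?_, ?_⟩
  · intro l hl
    have e : Fin.natAdd n l = q := Fin.ext (by simp [hl, hq])
    simp only
    rw [e, hb _ (hx q le_rfl), hb _ (hz q le_rfl), sub_x, sub_z]
    rw [dif_neg (by omega), dif_neg (by omega), hρ _ (by simp only; omega)]
  · refine (R.ok j).1 _ _ fun v hv => ?_
    have key : ∀ l : Fin (n + r), subst (gs fun l => (b (.x (Fin.natAdd n l)),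
        b (.z (Fin.natAdd n l)))) y (.x l) = b (.x l) ∧ subst (gs fun l => (b (.x (Fin.natAdd n l)),
        b (.z (Fin.natAdd n l)))) y (.z l) = b (.z l) := by
      intro l
      rw [sub_x, sub_z]
      by_cases h : l.val < n
      · have hlq : l ≤ q := Fin.le_def.2 (by omega)
        rw [dif_pos h, dif_pos h, hb _ (hx l hlq), hb _ (hz l hlq), sub_x, sub_z, dif_pos h,
          dif_pos h]
        exact ⟨rfl, rfl⟩
      · rw [dif_neg h, dif_neg h]
        have e : Fin.natAdd n (⟨l.val - n, by omega⟩ : Fin r) = l := Fin.ext (by simp; omega)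
        simp only [e]
        exact ⟨trivial, trivial⟩
    cases hex : (hard n r).ex v with
    | false =>
      obtain ⟨l, rfl⟩ := S.univ v hex
      exact (key l).2
    | true =>
      rcases S.exis v hex with ⟨l, rfl⟩ | hc
      · exact (key l).1
      · exact absurd (early_ex S hE hv hex) (hc i).not_gt

theorem maj_ans {ρ : Fin r → Bool × Bool} (hρ : Valid ρ) (y : Corner.V n) (q : Fin (n + r))
    (hq : q.val = n) : (majb y = true ↔ subst (gs ρ) y (.z q) =
      ans q fun j => subst (gs ρ) y (.x j)) ∧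
    ∀ i < q, subst (gs ρ) y (.z i) = ans i fun j => subst (gs ρ) y (.x j) := by
  constructor
  · have h1 : subst (gs ρ) y (.x q) = false := by
      rw [sub_x, dif_neg (by omega), hρ _ (by simp only; omega)]
    have h2 : subst (gs ρ) y (.z q) = true := by
      rw [sub_z, dif_neg (by omega), hρ _ (by simp only; omega)]
    have h3 : cnt (fun j => subst (gs ρ) y (.x j : Var n r)) n = (Corner.sp y).card := by
      unfold cnt Corner.sp
      congr 1
      ext l
      simp only [Finset.mem_filter, Finset.mem_univ, true_and, sub_x, Fin.val_castAdd, l.isLt,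
        dif_pos, decide_eq_true_eq]
    unfold ans majb
    rw [if_neg (by omega), h2, h3]
    simp only [h1]
    cases decide (n / 2 + 1 ≤ (Corner.sp y).card) <;> simp
  · intro i hi
    have h : i.val < n := by have := Fin.lt_def.1 hi; omega
    unfold ans
    rw [if_pos h]
    simp only [sub_x, sub_z]
    rw [dif_pos h, dif_pos h]

theorem maj_iff {k s : ℕ} (R : Refutation (hard n r) k s) (hk : k < r) (y : Corner.V n) :
    majb y = true ↔ ∃ (j : Fin s) (ρ : Fin r → Bool × Bool), (Early R Var.z j ⟨n + k, by omega⟩ ∧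
      Valid ρ) ∧ (R.line j).val (subst (gs ρ) y) = false ∧
      ∀ (j' : Fin s) (ρ' : Fin r → Bool × Bool), (j' ≤ j ∧ Early R Var.z j' ⟨n, by omega⟩ ∧
        Valid ρ') → (R.line j').val (subst (gs ρ') y) = true := by
  set q : Fin (n + r) := ⟨n, by omega⟩ with hq
  set ρ0 : Fin r → Bool × Bool := fun _ => (false, true) with hρ0
  have hv0 : Valid ρ0 := fun _ _ => rfl
  obtain ⟨h1, h2⟩ := maj_ans hv0 y q rfl
  rw [h1, answer (R := R) shape q (show n + k < n + r by omega) _ h2]
  constructor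
  · rintro ⟨j, hE, ⟨b, hb, hv⟩, hall⟩
    obtain ⟨ρ, hρ, hρv⟩ := sub_surj R hv0 y q rfl b hb hE
    refine ⟨j, ρ, ⟨hE, hρ⟩, by rw [hρv, hv], ?_⟩
    rintro j' ρ' ⟨hj', hE', hρ'⟩
    exact hall j' hj' hE' _ fun v hv => sub_agree hρ' hv0 y q rfl v hv
  · rintro ⟨j, ρ, ⟨hE, hρ⟩, hv, hall⟩
    refine ⟨j, hE, ⟨_, fun v hv => sub_agree hρ hv0 y q rfl v hv, hv⟩, ?_⟩
    intro j' hj' hE' b hb
    obtain ⟨ρ', hρ', hρv⟩ := sub_surj R hv0 y q rfl b hb hE'
    rw [← hρv]
    exact hall j' ρ' ⟨hj', hE', hρ'⟩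

/-- The counting bound. -/
theorem main_bound {p D d S k s : ℕ} [Fact p.Prime] (R : Refutation (hard n r) k s) (hk : k < r)
    (hS : ∀ j, Computed p D d S (R.line j).val) (t : ℕ) (ht : 1 ≤ t)
    (hD : 16 * (t * ((p - 1) * (D * ((p - 1) * t) ^ d + t * ((p - 1) * (D * ((p - 1) * t) ^ d)))) +
      1) ^ 2 ≤ n + 1) : 2 ^ t ≤ 4 * (s * 4 ^ r * S + s + 1) := by
  set D0 := D * ((p - 1) * t) ^ d with hD0
  -- the lines
  choose P hP1 hP2 using fun (j : Fin s) (ρ : Fin r → Bool × Bool) =>
    computed_approx (hS j) (gs (n := n) ρ) t ht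
  -- the conjunctions
  let Q : Fin s → Type := fun j => {q : Fin s × (Fin r → Bool × Bool) //
    q.1 ≤ j ∧ Early R Var.z q.1 ⟨n, by omega⟩ ∧ Valid q.2}
  choose A hA1 hA2 using fun (j : Fin s) =>
    or_approx (Q := Q j) (fun q y => !P q.1.1 q.1.2 y) (fun q => Corner.LB_not (hP1 q.1.1 q.1.2)) t
  -- the disjunction
  let Q' : Type := {q : Fin s × (Fin r → Bool × Bool) // Early R Var.z q.1 ⟨n + k, by omega⟩ ∧
    Valid q.2}
  obtain ⟨F, hF1, hF2⟩ := or_approx (Q := Q') (fun q y => !P q.1.1 q.1.2 y && !A q.1.1 y)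
    (fun q => LB_and (Corner.LB_not (hP1 q.1.1 q.1.2)) (Corner.LB_not (hA1 q.1.1))) t
  have hq := maj_quarter (K := ZMod p) (n := n) _ hD F hF1
  -- the errors
  set E1 : Fin s × (Fin r → Bool × Bool) → Finset (Corner.V n) := fun q =>
    univ.filter fun y => P q.1 q.2 y ≠ (R.line q.1).val (subst (gs q.2) y) with hE1
  set E2 : Fin s → Finset (Corner.V n) := fun j =>
    univ.filter fun y => A j y ≠ decide (∃ q : Q j, (!P q.1.1 q.1.2 y) = true) with hE2
  set E3 : Finset (Corner.V n) :=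
    univ.filter fun y => F y ≠ decide (∃ q : Q', (!P q.1.1 q.1.2 y && !A q.1.1 y) = true) with hE3
  have hsub : (univ.filter fun y : Corner.V n => F y ≠ majb y) ⊆
      (univ.biUnion E1) ∪ (univ.biUnion E2) ∪ E3 := by
    intro y hy
    rw [Finset.mem_filter] at hy
    by_contra hcon
    rw [Finset.mem_union, Finset.mem_union, not_or, not_or, Finset.mem_biUnion,
      Finset.mem_biUnion] at hcon
    obtain ⟨⟨h1, h2⟩, h3⟩ := hcon
    have g1 : ∀ j ρ, P j ρ y = (R.line j).val (subst (gs ρ) y) := by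
      intro j ρ
      by_contra hne
      exact h1 ⟨(j, ρ), Finset.mem_univ _, Finset.mem_filter.2 ⟨Finset.mem_univ _, hne⟩⟩
    have g2 : ∀ j, A j y = decide (∃ q : Q j, (!P q.1.1 q.1.2 y) = true) := by
      intro j
      by_contra hne
      exact h2 ⟨j, Finset.mem_univ _, Finset.mem_filter.2 ⟨Finset.mem_univ _, hne⟩⟩
    have g3 : F y = decide (∃ q : Q', (!P q.1.1 q.1.2 y && !A q.1.1 y) = true) := by
      by_contra hne
      exact h3 (Finset.mem_filter.2 ⟨Finset.mem_univ _, hne⟩)
    apply hy.2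
    rw [g3]
    have h5 := maj_iff R hk y
    have h6 : (∃ q : Q', (!P q.1.1 q.1.2 y && !A q.1.1 y) = true) ↔ majb y = true := by
      rw [h5]
      constructor
      · rintro ⟨⟨⟨j, ρ⟩, hE, hρ⟩, hv⟩
        rw [Bool.and_eq_true, Bool.not_eq_true', Bool.not_eq_true', g1, g2] at hv
        refine ⟨j, ρ, ⟨hE, hρ⟩, hv.1, ?_⟩
        rintro j' ρ' hj'
        by_contra hc
        have h7 := decide_eq_false_iff_not.1 hv.2
        refine h7 ⟨⟨(j', ρ'), hj'⟩, ?_⟩
        rw [g1]
        simpa using hc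
      · rintro ⟨j, ρ, hE, hv, hall⟩
        refine ⟨⟨(j, ρ), hE⟩, ?_⟩
        rw [Bool.and_eq_true, Bool.not_eq_true', Bool.not_eq_true', g1, g2]
        refine ⟨hv, decide_eq_false ?_⟩
        rintro ⟨⟨⟨j', ρ'⟩, hj'⟩, hc⟩
        rw [g1, Bool.not_eq_true', hall j' ρ' hj'] at hc
        exact Bool.false_ne_true hc.symm
    cases hm : majb y with
    | true => exact decide_eq_true (h6.2 hm)
    | false => exact decide_eq_false fun h => by rw [h6.1 h] at hm; exact Bool.false_ne_true hm.symm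
  have hcard : (univ.filter fun y : Corner.V n => F y ≠ majb y).card * 2 ^ t ≤
      (s * 4 ^ r * S + s + 1) * 2 ^ n := by
    have hR : Fintype.card (Fin s × (Fin r → Bool × Bool)) = s * 4 ^ r := by
      rw [Fintype.card_prod, Fintype.card_fin, Fintype.card_fun, Fintype.card_prod,
        Fintype.card_bool, Fintype.card_fin]
    calc _ ≤ ((∑ q, (E1 q).card) + (∑ j, (E2 j).card) + E3.card) * 2 ^ t := by
          refine Nat.mul_le_mul_right _ ((Finset.card_le_card hsub).trans ?_)
          refine (Finset.card_union_le _ _).trans (Nat.add_le_add_right ?_ _)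
          refine (Finset.card_union_le _ _).trans (Nat.add_le_add ?_ ?_)
          · exact Finset.card_biUnion_le
          · exact Finset.card_biUnion_le
      _ = (∑ q, (E1 q).card * 2 ^ t) + (∑ j, (E2 j).card * 2 ^ t) + E3.card * 2 ^ t := by
          rw [Nat.add_mul, Nat.add_mul, Finset.sum_mul, Finset.sum_mul]
      _ ≤ (∑ _q : Fin s × (Fin r → Bool × Bool), S * 2 ^ n) + (∑ _j : Fin s, 2 ^ n) + 2 ^ n := by
          refine Nat.add_le_add (Nat.add_le_add ?_ ?_) hF2
          · exact Finset.sum_le_sum fun q _ => hP2 q.1 q.2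
          · exact Finset.sum_le_sum fun j _ => hA2 j
      _ = (s * 4 ^ r * S + s + 1) * 2 ^ n := by
          rw [Finset.sum_const, Finset.sum_const, Finset.card_univ, Finset.card_univ, hR,
            Fintype.card_fin, smul_eq_mul, smul_eq_mul]
          ring
  have h2n : 0 < 2 ^ n := by positivity
  refine Nat.le_of_mul_le_mul_right ?_ h2n
  calc 2 ^ t * 2 ^ n ≤ 2 ^ t * (4 * (univ.filter fun y : Corner.V n => F y ≠ majb y).card) :=
        Nat.mul_le_mul_left _ hq
    _ = 4 * ((univ.filter fun y : Corner.V n => F y ≠ majb y).card * 2 ^ t) := by ring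
    _ ≤ 4 * ((s * 4 ^ r * S + s + 1) * 2 ^ n) := Nat.mul_le_mul_left _ hcard
    _ = 4 * (s * 4 ^ r * S + s + 1) * 2 ^ n := by ring

end Pool.Agent.Helper67.QP
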