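import Mathlib
import Pool.Agent.Helper67.QP.Upper

/-!
# Short refutations with simple lines when enough rounds are free
-/

set_option autoImplicit false
set_option linter.unusedSectionVars false

namespace Pool.Agent.Helper67.QP

open Classical

variable {ι : Type} [LinearOrder ι] [Fintype ι] {Φ : QCNF ι} {m : ℕ} {x z : Fin m → ι}
  {f : Fin m → (Fin m → Bool) → Bool} {ext : Fin m → (ι → Bool) → ι → Bool}

/-- the line `wl`, also with the next existential variable in the context -/
noncomputable def wl' (x z : Fin m → ι) (f : Fin m → (Fin m → Bool) → Bool) (l : ℕ) : Line ι where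
  ctx := {v | (∃ i : Fin m, i.val < l ∧ (v = x i ∨ v = z i)) ∨ ∃ i : Fin m, i.val = l ∧ v = x i}
  val := (wl x z f l).val

theorem wl'_false {l : ℕ} {a : ι → Bool} : (wl' x z f l).val a = false ↔
    ∀ i : Fin m, i.val < l → a (z i) = f i fun j => a (x j) := wl_false

theorem wl'_ok (S : Shape Φ m x z f ext) (l : ℕ) : (wl' x z f l).Ok Φ := by
  constructor
  · intro a b h
    exact (wl_ok S l).1 a b fun v hv => h v (Or.inl hv)
  · rintro v (⟨i, hi, hv⟩ | ⟨i, hi, hv⟩) hex u hu huex
    · exact Or.inl ((wl_ok S l).2 v ⟨i, hi, hv⟩ hex u hu huex)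
    · obtain ⟨j, rfl⟩ := S.univ u huex
      subst hv
      have hj : j < i := by
        by_contra hc
        exact absurd hu (not_lt.2 ((S.x_lt_z i).le.trans (S.z_le_z (not_lt.1 hc))))
      exact Or.inl ⟨j, by have : j.val < i.val := hj; omega, Or.inr rfl⟩

/-- the lines of the refutation -/
noncomputable def li (x z : Fin m → ι) (f : Fin m → (Fin m → Bool) → Bool) (n j : ℕ) : Line ι :=
  if j % 2 = 0 then wl' x z f (n - j / 2) else wl x z f (n - j / 2)

theorem li_false {n j : ℕ} {a : ι → Bool} : (li x z f n j).val a = false ↔
    ∀ i : Fin m, i.val < n - j / 2 → a (z i) = f i fun j => a (x j) := by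
  unfold li
  split_ifs
  · exact wl'_false
  · exact wl_false

theorem li_ctx {n j : ℕ} {i : Fin m} (hi : i.val < n - j / 2) :
    x i ∈ (li x z f n j).ctx ∧ z i ∈ (li x z f n j).ctx := by
  unfold li
  split_ifs
  · exact ⟨Or.inl ⟨i, hi, Or.inl rfl⟩, Or.inl ⟨i, hi, Or.inr rfl⟩⟩
  · exact ⟨⟨i, hi, Or.inl rfl⟩, ⟨i, hi, Or.inr rfl⟩⟩

/-- The refutation with `r` rounds. -/
theorem sharp (S : Shape Φ m x z f ext) {n r : ℕ} (hm : m = n + r) (hr : 1 ≤ r)
    (hM : ∀ a : ι → Bool, (∀ i, a (z i) = f i fun j => a (x j)) → ¬ Φ.Holds a) :
    ∃ R : Refutation Φ r (2 * n + 2), ∀ j, R.line j = li x z f n j.val := by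
  refine ⟨⟨fun j => li x z f n j.val, fun j => ?_, ?_, ⟨⟨2 * n + 1, by omega⟩, ?_, ?_⟩⟩,
    fun j => rfl⟩
  · unfold li
    split_ifs
    · exact wl'_ok S _
    · exact wl_ok S _
  · intro j a ha
    have hctx : ∀ i : Fin m, i.val < n - j.val / 2 → x i ∈ (li x z f n j.val).ctx ∧
      z i ∈ (li x z f n j.val).ctx := fun i hi => li_ctx hi
    rw [li_false] at ha
    have hplay : ∀ (b h : ι → Bool) (i : Fin m), i.val < n - j.val / 2 →
        Φ.play (li x z f n j.val).ctx a b h (x i) = a (x i) ∧
        Φ.play (li x z f n j.val).ctx a b h (z i) = a (z i) := by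
      intro b h i hi
      unfold QCNF.play
      rw [if_pos (hctx i hi).1, if_pos (hctx i hi).2]
      exact ⟨rfl, rfl⟩
    rcases Nat.eq_zero_or_pos j.val with hj | hj
    · -- the first line
      have hX : (li x z f n j.val).ctx = {v | (∃ i : Fin m, i.val < n ∧ (v = x i ∨ v = z i)) ∨
          ∃ i : Fin m, i.val = n ∧ v = x i} := by
        rw [hj]; rfl
      have hj2 : n - j.val / 2 = n := by rw [hj]; simp
      rw [hj2] at ha hplay
      set X := (li x z f n j.val).ctx with hXdef
      have hxX : ∀ i : Fin m, x i ∈ X ↔ i.val ≤ n := by
        intro i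
        rw [hX]
        constructor
        · rintro (⟨i', hi', h | h⟩ | ⟨i', hi', h⟩)
          · have := S.x_lt_iff.2 (le_refl i)
            have h2 : i' = i := by
              by_contra hne
              rcases lt_or_gt_of_ne hne with h3 | h3
              · exact absurd h ((S.x_lt_z i').trans (S.z_lt_x _ _ h3)).ne'
              · exact absurd h ((S.x_lt_z i).trans (S.z_lt_x _ _ h3)).ne
            rw [← h2]; omega
          · exact absurd h (S.x_ne_z i i')
          · have h2 : i' = i := by
              by_contra hne
              rcases lt_or_gt_of_ne hne with h3 | h3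
              · exact absurd h ((S.x_lt_z i').trans (S.z_lt_x _ _ h3)).ne'
              · exact absurd h ((S.x_lt_z i).trans (S.z_lt_x _ _ h3)).ne
            rw [← h2]; omega
        · intro hi
          rcases hi.lt_or_eq with h | h
          · exact Or.inl ⟨i, h, Or.inl rfl⟩
          · exact Or.inr ⟨i, h, rfl⟩
      have hzX : ∀ i : Fin m, z i ∈ X ↔ i.val < n := by
        intro i
        rw [hX]
        constructor
        · rintro (⟨i', hi', h | h⟩ | ⟨i', hi', h⟩)
          · exact absurd h.symm (S.x_ne_z i' i)
          · have h2 : i' = i := by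
              by_contra hne
              rcases lt_or_gt_of_ne hne with h3 | h3
              · exact absurd h (S.z_lt_z h3).ne'
              · exact absurd h (S.z_lt_z h3).ne
            rw [← h2]; omega
          · exact absurd h.symm (S.x_ne_z i' i)
        · intro hi
          exact Or.inl ⟨i, hi, Or.inr rfl⟩
      -- the rounds
      let rnd : ι → ℕ := fun v =>
        if h : ∃ i : Fin m, v = z i then h.choose.val - n
        else if h : ∃ i : Fin m, v = x i then h.choose.val - n - 1 else r - 1
      have hrz : ∀ i, rnd (z i) = i.val - n := by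
        intro i
        have h : ∃ i' : Fin m, z i = z i' := ⟨i, rfl⟩
        show (if h : ∃ i' : Fin m, z i = z i' then h.choose.val - n else _) = _
        rw [dif_pos h]
        have h1 := h.choose_spec
        have h2 : h.choose = i := by
          by_contra hne
          rcases lt_or_gt_of_ne hne with h3 | h3
          · exact absurd h1 (S.z_lt_z h3).ne'
          · exact absurd h1 (S.z_lt_z h3).ne
        rw [h2]
      have hrx : ∀ i, rnd (x i) = i.val - n - 1 := by
        intro i
        have h0 : ¬ ∃ i' : Fin m, x i = z i' := fun ⟨i', h⟩ => S.x_ne_z i i' h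
        have h : ∃ i' : Fin m, x i = x i' := ⟨i, rfl⟩
        show (if h : ∃ i' : Fin m, x i = z i' then h.choose.val - n
          else if h : ∃ i' : Fin m, x i = x i' then h.choose.val - n - 1 else r - 1) = _
        rw [dif_neg h0, dif_pos h]
        have h1 := h.choose_spec
        have h2 : h.choose = i := by
          by_contra hne
          rcases lt_or_gt_of_ne hne with h3 | h3
          · exact absurd h1 ((S.x_lt_z _).trans (S.z_lt_x _ _ h3)).ne'
          · exact absurd h1 ((S.x_lt_z _).trans (S.z_lt_x _ _ h3)).ne
        rw [h2]
      have hro : ∀ v, (∀ i, v ≠ z i) → (∀ i, v ≠ x i) → rnd v = r - 1 := by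
        intro v h1 h2
        show (if h : ∃ i' : Fin m, v = z i' then h.choose.val - n
          else if h : ∃ i' : Fin m, v = x i' then h.choose.val - n - 1 else r - 1) = _
        rw [dif_neg (fun ⟨i, h⟩ => h1 i h), dif_neg (fun ⟨i, h⟩ => h2 i h)]
      let g : (ι → Bool) → Fin m → Bool := fun b i => if i.val ≤ n then a (x i) else b (x i)
      let H : (ι → Bool) → ι → Bool := fun b v =>
        if h : ∃ i : Fin m, v = z i then f h.choose (g b) else false
      have hH : ∀ b i, H b (z i) = f i (g b) := by
        intro b i
        have h : ∃ i' : Fin m, z i = z i' := ⟨i, rfl⟩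
        show (if h : ∃ i' : Fin m, z i = z i' then f h.choose (g b) else false) = _
        rw [dif_pos h]
        have h1 := h.choose_spec
        have h2 : h.choose = i := by
          by_contra hne
          rcases lt_or_gt_of_ne hne with h3 | h3
          · exact absurd h1 (S.z_lt_z h3).ne'
          · exact absurd h1 (S.z_lt_z h3).ne
        rw [h2]
      refine ⟨rnd, H, ?_, ?_, ?_, ?_⟩
      · intro v
        by_cases h1 : ∃ i, v = z i
        · obtain ⟨i, rfl⟩ := h1
          rw [hrz]
          have := i.isLt
          omega
        · by_cases h2 : ∃ i, v = x i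
          · obtain ⟨i, rfl⟩ := h2
            rw [hrx]
            have := i.isLt
            omega
          · rw [hro v (fun i h => h1 ⟨i, h⟩) (fun i h => h2 ⟨i, h⟩)]
            omega
      · intro u v hu hv hue hve huv
        obtain ⟨i, rfl⟩ := S.univ u hue
        rw [hrz]
        by_cases h2 : ∃ i, v = x i
        · obtain ⟨i', rfl⟩ := h2
          rw [hrx]
          have h3 : i < i' := by
            by_contra hc
            exact absurd huv (not_lt.2 ((S.x_lt_z i').le.trans (S.z_le_z (not_lt.1 hc))))
          have h4 : i.val < i'.val := h3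
          omega
        · rw [hro v (fun i h => by rw [h, S.ex_z] at hve; exact Bool.false_ne_true hve)
            (fun i h => h2 ⟨i, h⟩)]
          have := i.isLt
          omega
      · intro b b' u h
        by_cases hu : ∃ i, u = z i
        · obtain ⟨i, rfl⟩ := hu
          rw [hH, hH]
          refine S.f_dep i _ _ fun i' hi' => ?_
          show (if i'.val ≤ n then a (x i') else b (x i')) =
            if i'.val ≤ n then a (x i') else b' (x i')
          split_ifs with hn
          · rfl
          · refine h (x i') (fun hc => hn ((hxX i').1 hc)) (S.ex_x i') ?_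
            rw [hrz, hrx]
            have : i'.val ≤ i.val := hi'
            omega
        · show (if h : ∃ i : Fin m, u = z i then f h.choose (g b) else false) =
            (if h : ∃ i : Fin m, u = z i then f h.choose (g b') else false)
          rw [dif_neg hu, dif_neg hu]
      · rintro b ⟨hb, -⟩
        refine hM _ ?_ hb
        have hpx : ∀ i, Φ.play X a b (H b) (x i) = g b i := by
          intro i
          unfold QCNF.play
          show _ = if i.val ≤ n then a (x i) else b (x i)
          by_cases hi : i.val ≤ n
          · rw [if_pos ((hxX i).2 hi), if_pos hi]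
          · rw [if_neg (fun hc => hi ((hxX i).1 hc)), if_pos (S.ex_x i), if_neg hi]
        intro i
        simp only [hpx]
        by_cases hi : i.val < n
        · rw [(hplay b _ i hi).2, ha i hi]
          refine S.f_dep i _ _ fun i' hi' => ?_
          have : i'.val ≤ i.val := hi'
          show _ = if i'.val ≤ n then a (x i') else b (x i')
          rw [if_pos (by omega)]
        · unfold QCNF.play
          rw [if_neg (fun hc => hi ((hzX i).1 hc)), if_neg (by rw [S.ex_z]; exact Bool.false_ne_true),
            hH]
    · rcases Nat.mod_two_eq_zero_or_one j.val with he | he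
      · -- the value of `z l` for the last variable `x l` of the context
        have hl0 : n - j.val / 2 < m := by omega
        set l : Fin m := ⟨n - j.val / 2, hl0⟩ with hl
        have hX : (li x z f n j.val).ctx =
            {v | (∃ i : Fin m, i.val < n - j.val / 2 ∧ (v = x i ∨ v = z i)) ∨
            ∃ i : Fin m, i.val = n - j.val / 2 ∧ v = x i} := by
          unfold li
          rw [if_pos he]
          rfl
        set X := (li x z f n j.val).ctx with hXdef
        have hlX : x l ∈ X := by
          rw [hX]; exact Or.inr ⟨l, rfl, rfl⟩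
        have hlX' : z l ∉ X := by
          rw [hX]
          rintro (⟨i, hi, h | h⟩ | ⟨i, hi, h⟩)
          · exact S.x_ne_z i l h.symm
          · have hne : i < l := Fin.lt_def.2 hi
            exact absurd h (S.z_lt_z hne).ne'
          · exact S.x_ne_z i l h.symm
        refine ⟨fun _ => 0, fun _ _ => f l fun i => a (x i), fun _ => hr, fun _ _ _ _ _ _ _ => le_rfl,
          fun _ _ _ _ => rfl, ?_⟩
        rintro b ⟨-, hb⟩
        have h1 := hb ⟨j.val - 1, by omega⟩ (Fin.lt_def.2 (by show j.val - 1 < j.val; omega))
        rw [← Bool.not_eq_false] at h1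
        apply h1
        rw [li_false]
        intro i hi
        have hi2 : i.val < n - (j.val - 1) / 2 := hi
        have hi' : i.val ≤ l.val := by
          show i.val ≤ n - j.val / 2
          omega
        have hpx : ∀ (h : ι → Bool) (i' : Fin m), i' ≤ l → Φ.play X a b h (x i') = a (x i') := by
          intro h i' hi'
          rcases hi'.lt_or_eq with h2 | h2
          · exact (hplay b h i' h2).1
          · rw [h2]
            unfold QCNF.play
            rw [if_pos hlX]
        rcases hi'.lt_or_eq with h2 | h2
        · rw [(hplay b _ i h2).2, ha i h2]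
          refine S.f_dep i _ _ fun i' hi'' => ?_
          rw [hpx _ i' (le_trans hi'' hi')]
        · have hil : i = l := Fin.ext h2
          rw [hil]
          have h3 : Φ.play X a b (fun _ => f l fun i => a (x i)) (z l) = f l fun i => a (x i) := by
            unfold QCNF.play
            rw [if_neg hlX', if_neg (by rw [S.ex_z]; exact Bool.false_ne_true)]
          rw [h3]
          refine S.f_dep l _ _ fun i' hi'' => ?_
          rw [hpx _ i' hi'']
      · -- the variable `x l` is dropped from the context
        refine ⟨fun _ => 0, fun _ _ => false, fun _ => hr, fun _ _ _ _ _ _ _ => le_rfl,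
          fun _ _ _ _ => rfl, ?_⟩
        rintro b ⟨-, hb⟩
        have h1 := hb ⟨j.val - 1, by omega⟩ (Fin.lt_def.2 (by show j.val - 1 < j.val; omega))
        rw [← Bool.not_eq_false] at h1
        apply h1
        rw [li_false]
        intro i hi
        have hi2 : i.val < n - (j.val - 1) / 2 := hi
        have hi' : i.val < n - j.val / 2 := by omega
        rw [(hplay b _ i hi').2, ha i hi']
        refine S.f_dep i _ _ fun i' hi'' => ?_
        rw [(hplay b _ i' (lt_of_le_of_lt (Fin.le_def.1 hi'') hi')).1]
  · ext v
    have e : li x z f n (2 * n + 1) = wl x z f 0 := by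
      unfold li
      rw [if_neg (by omega)]
      congr 1
      omega
    show v ∈ (li x z f n (2 * n + 1)).ctx ↔ _
    rw [e]
    simp only [wl, Set.mem_empty_iff_false, iff_false]
    rintro ⟨i, hi, -⟩
    exact absurd hi (Nat.not_lt_zero _)
  · intro a
    show (li x z f n (2 * n + 1)).val a = false
    rw [li_false]
    intro i hi
    omega

/-- the exclusive or of two variables has degree two -/
theorem xor_degree (p : ℕ) [Fact p.Prime] {ι : Type} (u v : ι) :
    HasDegree p 2 (fun a : ι → Bool => a u ^^ a v) := by
  refine ⟨MvPolynomial.X u + MvPolynomial.X v - MvPolynomial.C 2 *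
    (MvPolynomial.X u * MvPolynomial.X v), ?_, ?_⟩
  · have h1 : ∀ w : ι, (MvPolynomial.X w : MvPolynomial ι (ZMod p)).totalDegree = 1 := fun w =>
      MvPolynomial.totalDegree_X w
    refine (MvPolynomial.totalDegree_sub _ _).trans (max_le ?_ ?_)
    · refine (MvPolynomial.totalDegree_add _ _).trans (max_le ?_ ?_)
      · rw [h1]; omega
      · rw [h1]; omega
    · refine (MvPolynomial.totalDegree_mul _ _).trans ?_
      rw [MvPolynomial.totalDegree_C, Nat.zero_add]
      refine (MvPolynomial.totalDegree_mul _ _).trans ?_
      rw [h1, h1]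
  · intro a
    rw [map_sub, map_add, map_mul, map_mul, MvPolynomial.eval_X, MvPolynomial.eval_X,
      MvPolynomial.eval_C]
    show (if a u = true then (1 : ZMod p) else 0) + (if a v = true then 1 else 0) -
      2 * ((if a u = true then 1 else 0) * (if a v = true then 1 else 0)) =
      if (a u ^^ a v) = true then 1 else 0
    generalize a u = b
    generalize a v = b'
    cases b <;> cases b' <;> norm_num

theorem computed_li (p : ℕ) [Fact p.Prime] {n r : ℕ} (j : ℕ) :
    Computed p 2 1 1 (li (Var.x (n := n) (r := r)) Var.z ans n j).val := by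
  have hl : n - j / 2 ≤ n := Nat.sub_le _ _
  set l := n - j / 2 with hldef
  have hval : ∀ a, (li (Var.x (n := n) (r := r)) Var.z ans n j).val a =
      decide (∃ i : Fin l, (a (.z ⟨i.val, by omega⟩) ^^ a (.x ⟨i.val, by omega⟩)) = true) := by
    intro a
    have h1 : (li (Var.x (n := n) (r := r)) Var.z ans n j).val a = false ↔
        ¬ ∃ i : Fin l, (a (.z ⟨i.val, by omega⟩) ^^ a (.x ⟨i.val, by omega⟩)) = true := by
      rw [li_false]
      constructor
      · rintro h ⟨i, hi⟩
        have h2 := h ⟨i.val, by omega⟩ i.isLt
        unfold ans at h2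
        rw [if_pos (show i.val < n by omega)] at h2
        rw [h2, Bool.xor_self] at hi
        exact Bool.false_ne_true hi
      · intro h i hi
        have h2 : ¬ (a (.z i) ^^ a (.x i)) = true := fun hc => h ⟨⟨i.val, hi⟩, hc⟩
        unfold ans
        rw [if_pos (show i.val < n by omega)]
        show a (.z i) = a (.x i)
        revert h2
        generalize a (.z i) = b
        generalize a (.x i) = b'
        cases b <;> cases b' <;> simp
    cases hv : (li (Var.x (n := n) (r := r)) Var.z ans n j).val a with
    | false => exact (decide_eq_false (h1.1 hv)).symm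
    | true =>
      symm
      rw [decide_eq_true_eq]
      by_contra hc
      rw [h1.2 hc] at hv
      exact Bool.false_ne_true hv
  refine ⟨{
    N := l + 1
    val := fun i a => if h : i.val < l then
      (a (.z ⟨i.val, by omega⟩) ^^ a (.x ⟨i.val, by omega⟩)) else
      (li (Var.x (n := n) (r := r)) Var.z ans n j).val a
    depth := fun i => if i.val < l then 0 else 1
    andOr := {Fin.last l}
    rule := ?_ }, ?_, ?_, Fin.last l, ?_⟩
  · intro i
    by_cases hi : i.val < l
    · left
      refine ⟨?_, ?_⟩
      · rw [Finset.mem_singleton]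
        rintro rfl
        exact absurd hi (lt_irrefl _)
      · simp only [hi, dif_pos]
        exact xor_degree p _ _
    · have hil : i = Fin.last l := Fin.ext (by have := i.isLt; simp only [Fin.val_last]; omega)
      right; right; right
      refine ⟨by rw [hil]; exact Finset.mem_singleton_self _,
        Finset.univ.filter fun i' : Fin (l + 1) => i'.val < l, ?_, Or.inr ?_⟩
      · intro i' hi'
        have h1 : i'.val < l := (Finset.mem_filter.1 hi').2
        refine ⟨?_, ?_⟩
        · rw [hil]
          exact Fin.lt_def.2 h1
        · simp only [hi, h1, if_true, if_false]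
          exact Nat.zero_lt_one
      · intro a
        simp only [hi, dif_neg, not_false_eq_true]
        rw [hval, decide_eq_decide]
        constructor
        · rintro ⟨i', hi'⟩
          refine ⟨i'.castSucc, Finset.mem_filter.2 ⟨Finset.mem_univ _, i'.isLt⟩, ?_⟩
          simp only [Fin.val_castSucc, i'.isLt, dif_pos]
          exact hi'
        · rintro ⟨i', hi', hv⟩
          have h1 : i'.val < l := (Finset.mem_filter.1 hi').2
          simp only [h1, dif_pos] at hv
          exact ⟨⟨i'.val, h1⟩, hv⟩
  · simp
  · intro i
    simp only
    split_ifs <;> omega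
  · intro a
    simp

theorem hard_sharp (n r : ℕ) (hr : 1 ≤ r) : ∃ R : Refutation (hard n r) r (2 * n + 2),
    ∀ p : ℕ, p.Prime → ∀ j, Computed p 2 1 1 (R.line j).val := by
  obtain ⟨R, hR⟩ := sharp (shape (n := n) (r := r)) rfl hr right_false
  refine ⟨R, fun p hp j => ?_⟩
  have : Fact p.Prime := ⟨hp⟩
  rw [hR]
  exact computed_li p _

end Pool.Agent.Helper67.QP
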