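import Mathlib
import Pool.Agent.Helper67.QP.Defs

/-!
# Soundness
-/

set_option autoImplicit false

namespace Pool.Agent.Helper67.QP

open Classical

variable {ι : Type} [LinearOrder ι] [Fintype ι] {Φ : QCNF ι}

theorem exists_fix (M : (ι → Bool) → ι → Bool)
    (hM : ∀ a b v, (∀ u, u < v → a u = b u) → M a v = M b v) : ∃ a, ∀ v, a v = M a v := by
  have wf : WellFounded (fun a b : ι => a < b) := wellFounded_lt
  let a : ι → Bool := wf.fix fun v prev => M (fun u => if h : u < v then prev u h else false) v
  refine ⟨a, fun v => ?_⟩
  have h1 : a v = M (fun u => if _ : u < v then a u else false) v :=
    wf.fix_eq (C := fun _ => Bool)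
      (fun v prev => M (fun u => if h : u < v then prev u h else false) v) v
  rw [h1]
  refine hM _ _ v fun u hu => ?_
  simp only [hu, dif_pos]

/-- A formula with a refutation is false. -/
theorem sound {k s : ℕ} (R : Refutation Φ k s) : ¬ Φ.IsTrue := by
  rintro ⟨F, hF, hH⟩
  have hPi : ∀ h v, Φ.play ∅ h (F h) h v = if Φ.ex v = true then F h v else h v := by
    intro h v
    unfold QCNF.play
    simp
  have key : ∀ (n : ℕ) (j : Fin s), j.val = n → ∀ h, (R.line j).val (Φ.play ∅ h (F h) h) = true := by
    intro n
    induction n using Nat.strong_induction_on with
    | _ n ih =>
      intro j hj h
      by_contra hc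
      have hc' : (R.line j).val (Φ.play ∅ h (F h) h) = false := by simpa using hc
      set a := Φ.play ∅ h (F h) h with ha
      obtain ⟨rnd, H, -, h2, h3, h4⟩ := R.step j a hc'
      set X := (R.line j).ctx with hX
      obtain ⟨c, hcfix⟩ := exists_fix (fun c v => if v ∈ X then a v else if Φ.ex v = true then F c v
        else H c v) (by
        intro b b' v hb
        by_cases hv : v ∈ X
        · simp only [hv, if_true]
        · simp only [hv, if_false]
          cases hex : Φ.ex v with
          | true =>
            simp only [if_true]
            exact hF _ _ _ fun u hu _ => hb u hu
          | false =>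
            simp only [Bool.false_eq_true, if_false]
            refine h3 _ _ _ fun w hw hwex hlt => hb w ?_
            by_contra hcon
            have hne : v ≠ w := by
              rintro rfl
              rw [hex] at hwex
              exact Bool.false_ne_true hwex
            have := h2 v w hv hw hex hwex (lt_of_le_of_ne (not_lt.1 hcon) hne)
            omega)
      have hplay : Φ.play X a c (H c) = c := by
        funext v
        rw [hcfix v]
        unfold QCNF.play
        by_cases hv : v ∈ X
        · simp only [hv, if_true]
        · simp only [hv, if_false]
          cases hex : Φ.ex v with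
          | true =>
            simp only [if_true]
            rw [hcfix v]
            simp only [hv, if_false, hex, if_true]
          | false => simp only [Bool.false_eq_true, if_false]
      have hPic : Φ.play ∅ c (F c) c = c := by
        funext v
        rw [hPi]
        cases hex : Φ.ex v with
        | false => simp only [Bool.false_eq_true, if_false]
        | true =>
          simp only [if_true]
          rw [hcfix v]
          by_cases hv : v ∈ X
          · simp only [hv, if_true]
            rw [ha, hPi, if_pos hex]
            refine (hF _ _ _ fun u hu huex => ?_).symm
            have huX : u ∈ X := (R.ok j).2 v hv hex u hu huex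
            rw [hcfix u]
            simp only [huX, if_true]
            rw [ha, hPi, huex]
            simp
          · simp only [hv, if_false, hex, if_true]
      have h5 := h4 c
      rw [hplay] at h5
      apply h5
      refine ⟨?_, fun i hi => ?_⟩
      · rw [← hPic]
        exact hH c
      · rw [← hPic]
        exact ih i.val (by rw [← hj]; exact hi) i rfl c
  obtain ⟨j, _, hj⟩ := R.last
  have := key j.val j rfl (fun _ => false)
  rw [hj] at this
  exact Bool.false_ne_true this

end Pool.Agent.Helper67.QP
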