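import Mathlib
import Pool.Agent.Helper67.QP.Bound
import Pool.Agent.Helper67.QP.Sound
import Pool.Agent.Helper67.QP.Sharp

/-!
# The asymptotic form of the lower bound
-/

set_option autoImplicit false

namespace Pool.Agent.Helper67.QP

theorem deg_le (P D d t : ℕ) (hP : 1 ≤ P) (ht : 1 ≤ t) :
    t * (P * (D * (P * t) ^ d + t * (P * (D * (P * t) ^ d)))) + 1 ≤
      3 * (D + 1) * (P * t) ^ (d + 2) := by
  have hPt : 1 ≤ P * t := Nat.mul_pos hP ht
  set X := P * t with hX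
  have h1 : t * (P * (D * X ^ d + t * (P * (D * X ^ d)))) = D * X ^ (d + 1) + D * X ^ (d + 2) := by
    rw [hX]; ring
  rw [h1]
  have h2 : X ^ (d + 1) ≤ X ^ (d + 2) := Nat.pow_le_pow_right hPt (by omega)
  have h3 : 1 ≤ X ^ (d + 2) := Nat.one_le_pow _ _ hPt
  nlinarith [Nat.mul_le_mul_left D h2]

theorem asymptotic (p D d : ℕ) (hp : p.Prime) : ∃ ε : ℝ, 0 < ε ∧ ∀ (n r k s S : ℕ), k < r →
    ∀ R : Refutation (hard n r) k s, (∀ j, Computed p D d S (R.line j).val) →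
      (2 : ℝ) ^ (ε * (n : ℝ) ^ ((1 : ℝ) / (2 * d + 4))) ≤ (s : ℝ) * (S + 2) * 4 ^ r := by
  have : Fact p.Prime := ⟨hp⟩
  have hP : 1 ≤ p - 1 := by have := hp.two_le; omega
  set C : ℕ := 144 * (D + 1) ^ 2 * (p - 1) ^ (2 * d + 4) with hC
  have hC1 : 1 ≤ C := by
    rw [hC]
    exact Nat.mul_pos (by positivity) (Nat.pow_pos hP)
  have hCR : (0 : ℝ) < C := by exact_mod_cast hC1
  set e : ℝ := (1 : ℝ) / (2 * d + 4) with he
  have hepos : 0 < e := by rw [he]; positivity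
  have hemul : e * ((2 * d + 4 : ℕ) : ℝ) = 1 := by
    rw [he]; push_cast; field_simp
  set c : ℝ := (1 / (C : ℝ)) ^ e with hc
  have hcpos : 0 < c := Real.rpow_pos_of_pos (by positivity) _
  refine ⟨c / 2, by positivity, ?_⟩
  intro n r k s S hk R hS
  set u : ℝ := c * (n : ℝ) ^ e with hu
  have hu0 : 0 ≤ u := by positivity
  have hs : 1 ≤ s := by
    obtain ⟨j, _⟩ := R.last
    have := j.isLt
    omega
  have hr : 1 ≤ r := by omega
  have hL0 : (8 : ℝ) ≤ (s : ℝ) * (S + 2) * 4 ^ r := by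
    have h1 : (1 : ℝ) ≤ s := by exact_mod_cast hs
    have h2 : (2 : ℝ) ≤ S + 2 := by
      have : (0 : ℝ) ≤ S := Nat.cast_nonneg _
      linarith
    have h3 : (4 : ℝ) ≤ 4 ^ r := by
      calc (4 : ℝ) = 4 ^ 1 := by norm_num
        _ ≤ 4 ^ r := pow_le_pow_right₀ (by norm_num) hr
    have h4 : (2 : ℝ) ≤ s * (S + 2) := by nlinarith
    nlinarith
  have hexp : c / 2 * (n : ℝ) ^ e = u / 2 := by rw [hu]; ring
  rw [hexp]
  rcases le_or_gt u 6 with hu6 | hu6
  · calc (2 : ℝ) ^ (u / 2) ≤ 2 ^ (3 : ℝ) :=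
        Real.rpow_le_rpow_of_exponent_le (by norm_num) (by linarith)
      _ = 8 := by norm_num
      _ ≤ _ := hL0
  · set t : ℕ := ⌊u⌋₊ with ht
    have htu : (t : ℝ) ≤ u := Nat.floor_le hu0
    have htu' : u < t + 1 := Nat.lt_floor_add_one u
    have ht1 : 1 ≤ t := by
      have : (1 : ℝ) < t := by linarith
      exact_mod_cast this.le
    have hpow : C * t ^ (2 * d + 4) ≤ n := by
      have h1 : (t : ℝ) ^ (2 * d + 4) ≤ u ^ (2 * d + 4) := pow_le_pow_left₀ (Nat.cast_nonneg _) htu _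
      have h2 : u ^ (2 * d + 4) = (1 / (C : ℝ)) * n := by
        rw [hu, mul_pow, hc, ← Real.rpow_natCast, ← Real.rpow_natCast, ← Real.rpow_mul (by positivity),
          ← Real.rpow_mul (Nat.cast_nonneg _), hemul, Real.rpow_one, Real.rpow_one]
      rw [h2] at h1
      have h3 : (C : ℝ) * (t : ℝ) ^ (2 * d + 4) ≤ n := by
        calc (C : ℝ) * (t : ℝ) ^ (2 * d + 4) ≤ C * ((1 / (C : ℝ)) * n) :=
              mul_le_mul_of_nonneg_left h1 hCR.le
          _ = n := by field_simp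
      exact_mod_cast h3
    have hmain := main_bound R hk hS t ht1 (by
      have h1 := deg_le (p - 1) D d t hP ht1
      have h2 := Nat.pow_le_pow_left h1 2
      calc 16 * (t * ((p - 1) * (D * ((p - 1) * t) ^ d + t * ((p - 1) * (D * ((p - 1) * t) ^ d)))) +
          1) ^ 2 ≤ 16 * (3 * (D + 1) * ((p - 1) * t) ^ (d + 2)) ^ 2 := Nat.mul_le_mul_left _ h2
        _ = C * t ^ (2 * d + 4) := by rw [hC]; ring
        _ ≤ n + 1 := by omega)
    have hmain' : (2 : ℝ) ^ t ≤ 4 * (s * 4 ^ r * S + s + 1) := by exact_mod_cast hmain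
    have h1 : (4 : ℝ) * (s * 4 ^ r * S + s + 1) ≤ 4 * ((s : ℝ) * (S + 2) * 4 ^ r) := by
      have h2 : (1 : ℝ) ≤ s := by exact_mod_cast hs
      have h3 : (1 : ℝ) ≤ 4 ^ r := one_le_pow₀ (by norm_num)
      nlinarith
    have h2 : (2 : ℝ) ^ (u / 2) * 4 ≤ 2 ^ (t : ℝ) := by
      have h3 : (4 : ℝ) = 2 ^ (2 : ℝ) := by norm_num
      rw [h3, ← Real.rpow_add (by norm_num)]
      refine Real.rpow_le_rpow_of_exponent_le (by norm_num) ?_
      linarith
    rw [Real.rpow_natCast] at h2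
    linarith

theorem hard_false (n r : ℕ) : ¬ (hard n r).IsTrue := by
  obtain ⟨R⟩ := hard_short n r
  exact sound R

end Pool.Agent.Helper67.QP
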